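import Pool.Agent.Helper75.CV.E8f

set_option autoImplicit false

namespace Pool.Agent.Helper75.CV.E8

open Complex Filter Topology MeasureTheory Set
open Pool.Agent.Helper36.CV

noncomputable section

theorem st_E8 (hP1 : ST_P1) (hP2 : ST_P2) (hP3 : ST_P3) (hQ2 : ST_Q2) (hQ3 : ST_Q3) (hQ4 : ST_Q4) (hQ6 : ST_Q6)
    (hE3 : ST_E3) (hE6 : ST_E6) (hN0 : ST_N0) : ST_E8 := by
  intro K hK
  obtain ⟨K3, hK3, hq3⟩ := hQ3
  obtain ⟨K6, ε6, hK6, hε6, hq6⟩ := hQ6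
  obtain ⟨KE3, εE3, hKE3, hεE3, hE3'⟩ := hE3
  obtain ⟨εE6, hεE6, hE6'⟩ := hE6
  set C2 := Real.exp (3 + 5 * K3) with hC2
  have hC21 : 1 ≤ C2 := Real.one_le_exp (by linarith)
  set C9 := K6 + 10 ^ 7 * C2 ^ 2 with hC9
  have hC9pos : 10 ^ 7 ≤ C9 := by
    have : 1 ≤ C2 ^ 2 := one_le_pow₀ hC21
    rw [hC9]; nlinarith
  have hKC9 : 10 ^ 7 ≤ K * C9 := by nlinarith
  set ε0 := min (min (1 / 10 ^ 8) (min ε6 εE3)) (min (min εE6 (1 / (2 * K3))) (min ((1 / (3520 * C2)) ^ 2) ((1 / (K * C9)) ^ 20))) with hε0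
  have hK3p : 0 < K3 := by linarith
  have hC2p : 0 < C2 := by linarith
  have hKC9p : 0 < K * C9 := by linarith
  refine ⟨6 + 2 * K * (10 ^ 6 * C2 ^ 2), ε0, ?_, ?_, ?_⟩
  · have : 0 ≤ 2 * K * (10 ^ 6 * C2 ^ 2) := by positivity
    linarith
  · rw [hε0]
    refine lt_min (lt_min (by norm_num) (lt_min hε6 hεE3)) (lt_min (lt_min hεE6 (by positivity)) (lt_min (by positivity) (by positivity)))
  intro ε Hm Hp C cd hpar hle e n E A hEL hU1 hU2 z hz hz'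
  have hε := hpar.1
  have l1 : ε ≤ 1 / 10 ^ 8 := hle.trans ((min_le_left _ _).trans (min_le_left _ _))
  have l2 : ε ≤ ε6 := hle.trans ((min_le_left _ _).trans ((min_le_right _ _).trans (min_le_left _ _)))
  have l3 : ε ≤ εE3 := hle.trans ((min_le_left _ _).trans ((min_le_right _ _).trans (min_le_right _ _)))
  have l4 : ε ≤ εE6 := hle.trans ((min_le_right _ _).trans ((min_le_left _ _).trans (min_le_left _ _)))
  have l5 : ε ≤ 1 / (2 * K3) := hle.trans ((min_le_right _ _).trans ((min_le_left _ _).trans (min_le_right _ _)))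
  have l6 : ε ≤ (1 / (3520 * C2)) ^ 2 := hle.trans ((min_le_right _ _).trans ((min_le_right _ _).trans (min_le_left _ _)))
  have l7 : ε ≤ (1 / (K * C9)) ^ 20 := hle.trans ((min_le_right _ _).trans ((min_le_right _ _).trans (min_le_right _ _)))
  have hε1 : ε ≤ 1 := by norm_num at l1; linarith
  have h5pos : 0 < Real.sqrt 5 := Real.sqrt_pos.2 (by norm_num)
  have hHm : 0 < Hm := by
    have h1 := hpar.2.2
    have h3 : 0 < ε * (1 + 42 * ε) := by positivity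
    by_contra hcon
    have hcon := not_lt.1 hcon
    nlinarith
  have hParr : Par ε Hm Hp := ⟨hε, hHm, hpar.2.1⟩
  have hE := hEL.pE
  have hA := hEL.pA
  set U := gam ^ n with hUdef
  have hUp : 0 < U := pow_pos e8_gam_pos n
  set σ := A * Real.sqrt E with hσ
  have hσ0 : 0 < σ := mul_pos hA (Real.sqrt_pos.2 hE)
  have e45 : ε ^ (4 / 5 : ℝ) ≤ 1 / 10000 := by
    calc ε ^ (4 / 5 : ℝ) ≤ ε ^ (1 / 2 : ℝ) := Real.rpow_le_rpow_of_exponent_ge hε hε1 (by norm_num)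
      _ = Real.sqrt ε := (Real.sqrt_eq_rpow ε).symm
      _ ≤ 1 / 10000 := by
        rw [Real.sqrt_le_left (by norm_num)]; norm_num at l1 ⊢; linarith
  have e19 : ε ^ (19 / 10 : ℝ) ≤ ε := by
    calc ε ^ (19 / 10 : ℝ) ≤ ε ^ (1 : ℝ) := Real.rpow_le_rpow_of_exponent_ge hε hε1 (by norm_num)
      _ = ε := Real.rpow_one _
  have e37 : ε ^ (37 / 20 : ℝ) ≤ ε := by
    calc ε ^ (37 / 20 : ℝ) ≤ ε ^ (1 : ℝ) := Real.rpow_le_rpow_of_exponent_ge hε hε1 (by norm_num)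
      _ = ε := Real.rpow_one _
  have e20 : ε ^ (1 / 20 : ℝ) ≤ 1 / (K * C9) := by
    calc ε ^ (1 / 20 : ℝ) ≤ ((1 / (K * C9)) ^ 20) ^ (1 / 20 : ℝ) := Real.rpow_le_rpow hε.le l7 (by norm_num)
      _ = ((1 / (K * C9)) ^ 20) ^ ((20 : ℕ) : ℝ)⁻¹ := by norm_num
      _ = 1 / (K * C9) := Real.pow_rpow_inv_natCast (by positivity) (by norm_num)
  have hU3 : |U - σ| ≤ ε * σ := by
    have g : ε ^ (37 / 20 : ℝ) * A * Real.sqrt E = ε ^ (37 / 20 : ℝ) * σ := by rw [hσ]; ring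
    rw [g] at hU2
    exact hU2.trans (mul_le_mul_of_nonneg_right e37 hσ0.le)
  have hεσ : ε * σ ≤ 1 / 10 ^ 8 * σ := mul_le_mul_of_nonneg_right l1 hσ0.le
  obtain ⟨u1, u2⟩ := abs_le.1 hU3
  have s1 : σ ≤ 10001 / 10000 * U := by norm_num at hεσ; linarith
  have s2 : U ≤ 10001 / 10000 * σ := by norm_num at hεσ; linarith
  have hUε : U ≤ ε ^ 2 := by
    refine le_trans ?_ hU1
    have : 1 ≤ |e.mu| + 1 := by linarith [abs_nonneg e.mu]
    nlinarith
  have he2 : ε ^ 2 ≤ 1 / 10 ^ 16 := by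
    calc ε ^ 2 ≤ (1 / 10 ^ 8) ^ 2 := pow_le_pow_left₀ hε.le l1 2
      _ = _ := by norm_num
  obtain ⟨ha1, ha2, ha3⟩ := e8_h
  have hzabs := abs_le.1 hz
  have hα1 : 7070 / 10000 ≤ zv z := by norm_num at l1; linarith
  have hα2 : zv z ≤ 7072 / 10000 := by norm_num at l1; linarith
  -- the label is less than 1
  obtain ⟨q1, q2, q3, q4, q5, q6, q7, _⟩ := hP2 Hm Hp C cd hHm
  have hlab1 : e.N + zv z * U < 1 := by
    have hcr := hEL.cr (e.c + E) (by linarith) (by linarith)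
    rw [add_sub_cancel_left] at hcr
    have g : ε ^ (4 / 5 : ℝ) * A * Real.sqrt E = ε ^ (4 / 5 : ℝ) * σ := by rw [hσ]; ring
    rw [g] at hcr
    have h1 := (abs_le.1 hcr).1
    have h3 : ε ^ (4 / 5 : ℝ) * σ ≤ 1 / 10000 * σ := mul_le_mul_of_nonneg_right e45 hσ0.le
    have h4 := (q1 (e.c + E)).2.2.1
    have h5 : zv z * U ≤ 7072 / 10000 * U := mul_le_mul_of_nonneg_right hα2 hUp.le
    linarith
  have hzc : ε ^ 2 < |zc z| := by
    by_contra hcon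
    have hcon := not_lt.1 hcon
    have hq := e8_sq hN0 z
    have h1 : |2 * zv z ^ 2 - 1| ≤ 1 / 2 := by
      rw [abs_le]; constructor <;> nlinarith
    have h3 : zc z ^ 2 ≤ 1 := by
      rw [← sq_abs]
      have : |zc z| ≤ 1 := by norm_num at he2; linarith
      nlinarith [abs_nonneg (zc z)]
    have h4 : |2 * zc z ^ 2 - 1| ≤ 1 := by
      rw [abs_le]; constructor <;> nlinarith [sq_nonneg (zc z)]
    have : |2 * zv z ^ 2 - 1| * |2 * zc z ^ 2 - 1| ≤ 1 / 2 * 1 := mul_le_mul h1 h4 (abs_nonneg _) (by norm_num)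
    linarith
  obtain ⟨G, hG1, hG2, hG3⟩ := e8_ex hN0 hP2 cd hHm e n ε hU1 (by norm_num at he2; linarith) z (by linarith) hlab1 hzc
  have S : S8 cd e ε K E A U z G :=
    { par := hpar
      hm := hHm
      eps := l1
      el := hEL
      U0 := hUp
      U2 := hUε
      s1 := s1
      s2 := s2
      e45 := e45
      e19 := e19
      ar := fun W hW => e8_ar hN0 cd e n ε hU1 W hW
      sq := fun w => e8_sq hN0 w
      hz := hz
      hz' := hz'
      GN := hG1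
      Gmu := hG2
      Ght := hG3 }
  have hin : ∀ t : ℝ, e.c < t → t ≤ e.c + 4 * E → 0 < Nf cd t ∧ Nf cd t < 1 := by
    intro t h1 h2
    have := (hE3' ε Hm Hp C cd hParr l3 e (4 * E) (by linarith) hEL.dl hEL.win).1 t h1 h2
    exact ⟨this.1, this.2.1⟩
  have hmu := S.mu1000
  obtain ⟨g1, g2⟩ := hE6' ε Hm Hp C cd hParr l4 G hmu
  obtain ⟨g3, _⟩ := hq6 ε Hm Hp C cd hParr l2 G hmu
  have hLW := S.LWG hP1 hP2 hP3 hQ2 hQ4 hin g2
  have hεE : 0 < ε * E := mul_pos hε hE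
  obtain ⟨_, sE1, sE2⟩ := S.sE hQ4 hP2 hP3
  have hK3ε : K3 * ε ≤ 1 / 2 := by
    have : K3 * ε ≤ K3 * (1 / (2 * K3)) := mul_le_mul_of_nonneg_left l5 hK3p.le
    have h2 : K3 * (1 / (2 * K3)) = 1 / 2 := by field_simp
    linarith
  have hkk := S.kkb hP1 hP2 hP3 hQ2 hQ4 hin g2 K3 hK3 hK3ε (by
    have h1 := hq3 ε Hm Hp C cd hHm hε (by norm_num at l1; linarith) G.a G.b G.N (ε * E / 10) G.lt.le
      (by have : G.b - G.a = G.s := rfl
          rw [this]; linarith) (by linarith) (fun t ht => G.lab t ht) (fun t ht => q7 G t ht)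
      (by
        intro t ht htn
        obtain ⟨_, _, _, w4⟩ := hQ4 ε Hm Hp C cd hParr (l1.trans (by norm_num))
        exact (w4 G t (hLW t ht)).2.2.1 htn)
    exact h1.2.2 G.lt)
  have hsm : 3520 * C2 * Real.sqrt ε ≤ 1 := by
    have h1 : Real.sqrt ε ≤ 1 / (3520 * C2) := by
      rw [Real.sqrt_le_left (by positivity)]; exact l6
    calc 3520 * C2 * Real.sqrt ε ≤ 3520 * C2 * (1 / (3520 * C2)) := mul_le_mul_of_nonneg_left h1 (by positivity)
      _ = 1 := by field_simp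
  obtain ⟨n1b, n2b⟩ := S.nb hP1 hP2 hP3 hQ2 hQ4 hin g2 C2 hC21 hkk hsm K6 (by linarith) g3 g1
  have hpp : 0 < ε ^ (19 / 10 : ℝ) := Real.rpow_pos_of_pos hε _
  have hKn1 : K * n1 G (E / 10) ≤ ε ^ (19 / 10 : ℝ) * U := by
    have h39 : ε ^ (39 / 20 : ℝ) = ε ^ (19 / 10 : ℝ) * ε ^ (1 / 20 : ℝ) := by
      rw [← Real.rpow_add hε]; norm_num
    calc K * n1 G (E / 10) ≤ K * (C9 * ε ^ (39 / 20 : ℝ) * U) := mul_le_mul_of_nonneg_left n1b (by linarith)
      _ = (K * C9 * ε ^ (1 / 20 : ℝ)) * (ε ^ (19 / 10 : ℝ) * U) := by rw [h39]; ring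
      _ ≤ (K * C9 * (1 / (K * C9))) * (ε ^ (19 / 10 : ℝ) * U) := by
        apply mul_le_mul_of_nonneg_right _ (by positivity)
        exact mul_le_mul_of_nonneg_left e20 hKC9p.le
      _ = _ := by rw [mul_one_div_cancel hKC9p.ne', one_mul]
  have he20 : ε ^ (1 / 20 : ℝ) ≤ 1 / 1000 := by
    refine e20.trans ?_
    apply one_div_le_one_div_of_le (by norm_num)
    linarith
  obtain ⟨f1, f2⟩ := S.fin hP2 hP3 hQ4 g2 hU2 (by linarith) (10 ^ 6 * C2 ^ 2) (by positivity) he20 hKn1 n2b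
  exact ⟨G, hG1, f1, f2⟩

end

end Pool.Agent.Helper75.CV.E8
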