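import Pool.Agent.Helper36.CV.StmtsE

set_option autoImplicit false

namespace Pool.Agent.Helper75.CV.E8

open Complex Filter Topology MeasureTheory Set
open Pool.Agent.Helper36.CV

noncomputable section

theorem e8_gam_pos : 0 < gam := by
  unfold gam
  have : (1:ℝ) < Real.sqrt 5 := by
    rw [Real.lt_sqrt (by norm_num)]; norm_num
  linarith

theorem e8_phi_pos : 0 < phi := by
  unfold phi
  have := Real.sqrt_nonneg (5:ℝ)
  linarith

theorem e8_gp : gam * phi = 1 := by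
  unfold gam phi
  have : Real.sqrt 5 * Real.sqrt 5 = 5 := Real.mul_self_sqrt (by norm_num)
  nlinarith

theorem e8_gsum : gam + phi = Real.sqrt 5 := by
  unfold gam phi; ring

theorem e8_unit (h0 : ST_N0) (n : ℕ) : ∃ p : ℤ × ℤ, zv p = gam ^ n ∧ |zc p| * gam ^ n = 1 ∧ |zn p| = 1 := by
  obtain ⟨hm, _⟩ := h0
  induction n with
  | zero =>
    refine ⟨(1, 0), ?_, ?_, ?_⟩
    · simp [zv]
    · simp [zc]
    · simp [zn]
  | succ n ih =>
    obtain ⟨p, h1, h2, h3⟩ := ih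
    have hx := hm (0, 1) p
    have e1 : zv (0, 1) = gam := by simp [zv]
    have e2 : zc (0, 1) = -phi := by simp [zc]
    have e3 : zn (0, 1) = -1 := by simp [zn]
    refine ⟨zm (0, 1) p, ?_, ?_, ?_⟩
    · rw [hx.1, e1, h1]; ring
    · rw [hx.2.1, e2, abs_mul, abs_neg, abs_of_pos e8_phi_pos, pow_succ]
      calc phi * |zc p| * (gam ^ n * gam) = (|zc p| * gam ^ n) * (gam * phi) := by ring
        _ = 1 := by rw [h2, e8_gp]; ring
    · rw [hx.2.2, e3, abs_mul, h3]; rfl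

theorem e8_sq (h0 : ST_N0) (w : ℤ × ℤ) : 1 ≤ |2 * zv w ^ 2 - 1| * |2 * zc w ^ 2 - 1| := by
  obtain ⟨hm, hn, hz, _⟩ := h0
  set y : ℤ × ℤ := (2 * (zm w w).1 - 1, 2 * (zm w w).2) with hy
  have h1 := hm w w
  have e1 : zv y = 2 * zv w ^ 2 - 1 := by
    have : zv y = 2 * zv (zm w w) - 1 := by
      simp only [hy, zv]; push_cast; ring
    rw [this, h1.1]; ring
  have e2 : zc y = 2 * zc w ^ 2 - 1 := by
    have : zc y = 2 * zc (zm w w) - 1 := by
      simp only [hy, zc]; push_cast; ring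
    rw [this, h1.2.1]; ring
  have h2 := hn y
  have h3 : zn y ≠ 0 := by
    intro h
    have := hz y h
    have h4 : 2 * (zm w w).1 - 1 = 0 := by
      have := congrArg Prod.fst this
      simpa [hy] using this
    omega
  have h5 : (1:ℝ) ≤ |(zn y : ℝ)| := by
    have : 1 ≤ |zn y| := Int.one_le_abs h3
    exact_mod_cast this
  rw [← e1, ← e2, ← abs_mul, h2]
  exact h5

/-- labels relative to the edge -/
theorem e8_ar (h0 : ST_N0) {Hm Hp : ℝ} {C : Set ℝ} (cd : CD Hm Hp C) (e : Edge cd) (n : ℕ) (ε : ℝ)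
    (hU : gam ^ n * (|e.mu| + 1) ≤ ε ^ 2) (W : Gap cd) (hW : |W.N - e.N| ≤ 1) :
    ∃ w : ℤ × ℤ, W.N - e.N = zv w * gam ^ n ∧ |(|W.mu| * gam ^ n - |zc w|)| ≤ ε ^ 2 := by
  obtain ⟨p, hp1, hp2, hp3⟩ := e8_unit h0 n
  obtain ⟨hm, hn, hz, hinj, hdiv, hgap, _⟩ := h0
  obtain ⟨w, hw⟩ := hdiv p hp3 (W.n - e.n, W.m - e.m)
  have hUp : 0 < gam ^ n := pow_pos e8_gam_pos n
  have hx := hm p w
  have heN : e.N = e.n + e.m * gam := e.lab
  have h1 : zv (W.n - e.n, W.m - e.m) = W.N - e.N := by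
    rw [heN]; simp only [zv, Gap.N]; push_cast; ring
  have h2 : zc (W.n - e.n, W.m - e.m) = (W.N - e.N) - W.mu + e.mu := by
    rw [heN]; simp only [zc, Gap.N, Gap.mu, Edge.mu]; push_cast; rw [← e8_gsum]; ring
  refine ⟨w, ?_, ?_⟩
  · rw [← h1, ← hw, hx.1, hp1]; ring
  · have h3 : zc p * zc w = (W.N - e.N) - W.mu + e.mu := by rw [← hx.2.1, hw, h2]
    have h4 : |zc w| = |(W.N - e.N) - W.mu + e.mu| * gam ^ n := by
      rw [← h3, abs_mul]
      calc |zc w| = (|zc p| * gam ^ n) * |zc w| := by rw [hp2]; ring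
        _ = _ := by ring
    have h5 : |(|W.mu| - |(W.N - e.N) - W.mu + e.mu|)| ≤ |e.mu| + 1 := by
      have a1 : |(|W.mu| - |(W.N - e.N) - W.mu + e.mu|)| ≤ |W.mu + ((W.N - e.N) - W.mu + e.mu)| := by
        have := abs_abs_sub_abs_le_abs_sub W.mu (-((W.N - e.N) - W.mu + e.mu))
        rwa [abs_neg, sub_neg_eq_add] at this
      have a2 : W.mu + ((W.N - e.N) - W.mu + e.mu) = (W.N - e.N) + e.mu := by ring
      rw [a2] at a1
      have a3 := abs_add_le (W.N - e.N) e.mu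
      linarith
    rw [h4, ← sub_mul, abs_mul, abs_of_pos hUp]
    calc _ ≤ (|e.mu| + 1) * gam ^ n := mul_le_mul_of_nonneg_right h5 hUp.le
      _ = gam ^ n * (|e.mu| + 1) := by ring
      _ ≤ _ := hU

/-- existence of the gap -/
theorem e8_ex (h0 : ST_N0) (h2 : ST_P2) {Hm Hp : ℝ} {C : Set ℝ} (cd : CD Hm Hp C) (hHm : 0 < Hm) (e : Edge cd) (n : ℕ) (ε : ℝ)
    (hU : gam ^ n * (|e.mu| + 1) ≤ ε ^ 2) (hε : ε ^ 2 < 1) (z : ℤ × ℤ) (hz0 : 0 < zv z) (hz1 : e.N + zv z * gam ^ n < 1)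
    (hz2 : ε ^ 2 < |zc z|) :
    ∃ G : Gap cd, G.N = e.N + zv z * gam ^ n ∧ |(|G.mu| * gam ^ n - |zc z|)| ≤ ε ^ 2 ∧
      ∃ t ∈ Ioo G.a G.b, Hm ≤ |(G.m : ℝ)| * vf cd t := by
  obtain ⟨p, hp1, hp2, hp3⟩ := e8_unit h0 n
  have h0' := h0
  obtain ⟨hm, hn, hz, hinj, hdiv, hgap, _⟩ := h0
  obtain ⟨q1, q2, q3, q4, q5, q6, q7, q8, q9, q10, q11, q12⟩ := h2 Hm Hp C cd hHm
  have hUp : 0 < gam ^ n := pow_pos e8_gam_pos n
  have heN : e.N = e.n + e.m * gam := e.lab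
  have heN0 : 0 ≤ e.N := (q1 e.c).2.1
  set x := zm p z with hx
  have hx1 : zv x = gam ^ n * zv z := by rw [hx, (hm p z).1, hp1]
  have hx2 : zc x = zc p * zc z := by rw [hx, (hm p z).2.1]
  have hsum : ((e.n + x.1 : ℤ) : ℝ) + ((e.m + x.2 : ℤ) : ℝ) * gam = e.N + zv z * gam ^ n := by
    have : zv x = x.1 + x.2 * gam := rfl
    rw [heN]; push_cast
    have h := hx1; rw [this] at h; linarith
  have hcx : |zc x| * gam ^ n = |zc z| := by
    rw [hx2, abs_mul]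
    calc |zc p| * |zc z| * gam ^ n = (|zc p| * gam ^ n) * |zc z| := by ring
      _ = _ := by rw [hp2]; ring
  have hzpos : 0 < zv z * gam ^ n := mul_pos hz0 hUp
  have hconj : zc x = (zv z * gam ^ n) - Real.sqrt 5 * ((e.m + x.2 : ℤ) : ℝ) + e.mu := by
    have h1 : zc x = x.1 - x.2 * phi := rfl
    have h3 : zv x = x.1 + x.2 * gam := rfl
    rw [hx1] at h3
    rw [h1]; simp only [Edge.mu]; push_cast
    rw [← e8_gsum]
    linarith
  have hkey : |(|Real.sqrt 5 * ((e.m + x.2 : ℤ) : ℝ)| - |zc x|)| ≤ |e.mu| + 1 := by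
    have a1 := abs_abs_sub_abs_le_abs_sub (Real.sqrt 5 * ((e.m + x.2 : ℤ) : ℝ)) (-(zc x))
    rw [abs_neg, sub_neg_eq_add] at a1
    have a2 : Real.sqrt 5 * ((e.m + x.2 : ℤ) : ℝ) + zc x = (zv z * gam ^ n) + e.mu := by rw [hconj]; ring
    rw [a2] at a1
    have a3 := abs_add_le (zv z * gam ^ n) e.mu
    have a4 : |zv z * gam ^ n| ≤ 1 := by rw [abs_of_pos hzpos]; linarith
    linarith
  have hkey2 : |(|Real.sqrt 5 * ((e.m + x.2 : ℤ) : ℝ)| * gam ^ n - |zc z|)| ≤ ε ^ 2 := by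
    rw [← hcx, ← sub_mul, abs_mul, abs_of_pos hUp]
    calc _ ≤ (|e.mu| + 1) * gam ^ n := mul_le_mul_of_nonneg_right hkey hUp.le
      _ = gam ^ n * (|e.mu| + 1) := by ring
      _ ≤ _ := hU
  have hne : e.m + x.2 ≠ 0 := by
    intro h
    rw [h] at hkey2
    simp only [Int.cast_zero, mul_zero, abs_zero, zero_mul, zero_sub, abs_neg, abs_abs] at hkey2
    linarith
  obtain ⟨G, hG1, hG2, t, ht, hGt⟩ := q10 (e.n + x.1) (e.m + x.2) hne (by rw [hsum]; linarith) (by rw [hsum]; exact hz1)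
  refine ⟨G, ?_, ?_, t, ht, ?_⟩
  · rw [← hsum]; simp only [Gap.N, hG1, hG2]
  · simp only [Gap.mu, hG2]; exact hkey2
  · rw [hG2]; exact hGt

end

end Pool.Agent.Helper75.CV.E8
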