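import Pool.Agent.Helper36.CV.StmtsE

set_option autoImplicit false

namespace Pool.Agent.Helper75.CV.E8

open Complex Filter Topology MeasureTheory Set
open Pool.Agent.Helper36.CV

noncomputable section

/-- the ring between radii -/
def e8R (x d0 d : ℝ) : Set ℝ := {t : ℝ | d0 < |t - x| ∧ |t - x| ≤ d}

theorem e8R_meas (x d0 d : ℝ) : MeasurableSet (e8R x d0 d) := by
  have h1 : Measurable (fun t : ℝ => |t - x|) := by fun_prop
  exact (measurableSet_lt measurable_const h1).inter (measurableSet_le h1 measurable_const)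

theorem e8_piece (v : ℝ → ℝ) (hv : ∀ t, 0 ≤ v t) (x d0 a D m : ℝ) (E0 : Set ℝ) (hd0 : 0 < d0)
    (hE0 : E0 ⊆ Icc (x - d0) (x + d0)) (ha : d0 ≤ a) (T : Set ℝ) (hTm : MeasurableSet T)
    (hT : ∀ t ∈ T, a < |t - x| ∧ |t - x| ≤ D)
    (hint : IntegrableOn v (Icc (x - D) (x + D)))
    (hm : ∫ t in Icc (x - D) (x + D) \ E0, v t ≤ m) :
    IntegrableOn (fun t => v t / |t - x|) T ∧ IntegrableOn (fun t => v t / |t - x| ^ 2) T ∧
    ∫ t in T, v t / |t - x| ≤ m / a ∧ ∫ t in T, v t / |t - x| ^ 2 ≤ m / a ^ 2 := by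
  have ha0 : 0 < a := lt_of_lt_of_le hd0 ha
  have hTsub : T ⊆ Icc (x - D) (x + D) \ E0 := by
    intro t ht
    obtain ⟨h1, h2⟩ := hT t ht
    refine ⟨?_, ?_⟩
    · have := abs_le.1 h2
      exact ⟨by linarith, by linarith⟩
    · intro h3
      have h4 := hE0 h3
      have : |t - x| ≤ d0 := abs_le.2 ⟨by linarith [h4.1], by linarith [h4.2]⟩
      linarith
  have hTint : IntegrableOn v T := hint.mono_set (hTsub.trans sdiff_subset)
  have hTle : ∫ t in T, v t ≤ m := by
    refine le_trans ?_ hm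
    exact setIntegral_mono_set (hint.mono_set sdiff_subset) (Filter.Eventually.of_forall hv) hTsub.eventuallyLE
  have hmeas : ∀ j : ℕ, AEStronglyMeasurable (fun t => v t / |t - x| ^ j) (volume.restrict T) := by
    intro j
    have h1 : AEStronglyMeasurable v (volume.restrict T) := hTint.aestronglyMeasurable
    have h2 : AEStronglyMeasurable (fun t : ℝ => (|t - x| ^ j)⁻¹) (volume.restrict T) := by
      apply Measurable.aestronglyMeasurable
      fun_prop
    exact (h1.mul h2).congr (Filter.Eventually.of_forall fun t => by simp [div_eq_mul_inv])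
  have hb : ∀ j : ℕ, ∀ t ∈ T, v t / |t - x| ^ j ≤ v t / a ^ j := by
    intro j t ht
    exact div_le_div_of_nonneg_left (hv t) (pow_pos ha0 j) (pow_le_pow_left₀ ha0.le (hT t ht).1.le j)
  have hI : ∀ j : ℕ, IntegrableOn (fun t => v t / |t - x| ^ j) T := by
    intro j
    refine Integrable.mono' (hTint.div_const (a ^ j)) (hmeas j) ?_
    refine (ae_restrict_iff' hTm).2 (Filter.Eventually.of_forall fun t ht => ?_)
    rw [Real.norm_of_nonneg (div_nonneg (hv t) (pow_nonneg (abs_nonneg _) j))]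
    exact hb j t ht
  have hJ : ∀ j : ℕ, ∫ t in T, v t / |t - x| ^ j ≤ m / a ^ j := by
    intro j
    calc ∫ t in T, v t / |t - x| ^ j ≤ ∫ t in T, v t / a ^ j :=
          setIntegral_mono_on (hI j) (hTint.div_const (a ^ j)) hTm (hb j)
      _ = (∫ t in T, v t) / a ^ j := by rw [integral_div]
      _ ≤ m / a ^ j := div_le_div_of_nonneg_right hTle (pow_nonneg ha0.le j)
  refine ⟨?_, hI 2, ?_, hJ 2⟩
  · simpa using hI 1
  · simpa using hJ 1

theorem e8_shell (v : ℝ → ℝ) (hv : ∀ t, 0 ≤ v t) (x d0 d1 m : ℝ) (E0 : Set ℝ) (hd0 : 0 < d0) (hd : d0 ≤ d1)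
    (hE0 : E0 ⊆ Icc (x - d0) (x + d0)) (hint : IntegrableOn v (Icc (x - d1) (x + d1))) (hm0 : 0 ≤ m)
    (hm : ∀ d, d0 ≤ d → d ≤ d1 → ∫ t in Icc (x - d) (x + d) \ E0, v t ≤ m * d) (k : ℕ) :
    IntegrableOn (fun t => v t / |t - x|) (e8R x d0 (min (2 ^ k * d0) d1)) ∧
    IntegrableOn (fun t => v t / |t - x| ^ 2) (e8R x d0 (min (2 ^ k * d0) d1)) ∧
    ∫ t in e8R x d0 (min (2 ^ k * d0) d1), v t / |t - x| ≤ 2 * m * k ∧
    ∫ t in e8R x d0 (min (2 ^ k * d0) d1), v t / |t - x| ^ 2 ≤ 4 * m / d0 * (1 - (1 / 2) ^ k) := by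
  induction k with
  | zero =>
    have h0 : e8R x d0 (min (2 ^ 0 * d0) d1) = ∅ := by
      ext t
      simp only [e8R, mem_ofPred_eq, mem_empty_iff_false, iff_false, not_and, not_le, pow_zero, one_mul]
      intro h
      rw [min_eq_left hd]; exact h
    rw [h0]
    simp
  | succ k ih =>
    obtain ⟨i1, i2, i3, i4⟩ := ih
    have h2k : (1:ℝ) ≤ 2 ^ k := one_le_pow₀ (by norm_num)
    have h2k0 : d0 ≤ 2 ^ k * d0 := by nlinarith
    by_cases hc : d1 ≤ 2 ^ k * d0
    · have e1 : min (2 ^ k * d0) d1 = d1 := min_eq_right hc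
      have e2 : min (2 ^ (k + 1) * d0) d1 = d1 := by
        apply min_eq_right
        rw [pow_succ]; nlinarith
      rw [e1] at i1 i2 i3 i4
      rw [e2]
      refine ⟨i1, i2, ?_, ?_⟩
      · push_cast; linarith
      · refine le_trans i4 ?_
        have : (1 / 2 : ℝ) ^ (k + 1) ≤ (1 / 2) ^ k := pow_le_pow_of_le_one (by norm_num) (by norm_num) (Nat.le_succ k)
        have h4 : 0 ≤ 4 * m / d0 := by positivity
        exact mul_le_mul_of_nonneg_left (by linarith) h4
    · have hc' : 2 ^ k * d0 < d1 := not_le.1 hc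
      have e1 : min (2 ^ k * d0) d1 = 2 ^ k * d0 := min_eq_left hc'.le
      rw [e1] at i1 i2 i3 i4
      set D := min (2 ^ (k + 1) * d0) d1 with hD
      have hD1 : D ≤ d1 := min_le_right _ _
      have hD2 : D ≤ 2 ^ (k + 1) * d0 := min_le_left _ _
      have hDk : 2 ^ k * d0 ≤ D := by
        rw [hD]; refine le_min ?_ hc'.le
        rw [pow_succ]; nlinarith
      have hsplit : e8R x d0 D = e8R x d0 (2 ^ k * d0) ∪ e8R x (2 ^ k * d0) D := by
        ext t
        simp only [e8R, mem_ofPred_eq, mem_union]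
        constructor
        · rintro ⟨h1, h2⟩
          by_cases h3 : |t - x| ≤ 2 ^ k * d0
          · exact Or.inl ⟨h1, h3⟩
          · exact Or.inr ⟨not_le.1 h3, h2⟩
        · rintro (⟨h1, h2⟩ | ⟨h1, h2⟩)
          · exact ⟨h1, h2.trans hDk⟩
          · exact ⟨lt_of_le_of_lt h2k0 h1, h2⟩
      have hdisj : Disjoint (e8R x d0 (2 ^ k * d0)) (e8R x (2 ^ k * d0) D) := by
        rw [Set.disjoint_left]
        rintro t ⟨_, h2⟩ ⟨h3, _⟩
        linarith
      obtain ⟨j1, j2, j3, j4⟩ := e8_piece v hv x d0 (2 ^ k * d0) D (m * D) E0 hd0 hE0 h2k0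
        (e8R x (2 ^ k * d0) D) (e8R_meas _ _ _) (fun t ht => ht)
        (hint.mono_set (Icc_subset_Icc (by linarith) (by linarith))) (hm D (h2k0.trans hDk) hD1)
      have hp : 0 < 2 ^ k * d0 := by positivity
      have k3 : m * D / (2 ^ k * d0) ≤ 2 * m := by
        rw [div_le_iff₀ hp]
        calc m * D ≤ m * (2 ^ (k + 1) * d0) := mul_le_mul_of_nonneg_left hD2 hm0
          _ = 2 * m * (2 ^ k * d0) := by rw [pow_succ]; ring
      have k4 : m * D / (2 ^ k * d0) ^ 2 ≤ 2 * m / d0 * (1 / 2) ^ k := by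
        have : m * D / (2 ^ k * d0) ^ 2 = m * D / (2 ^ k * d0) / (2 ^ k * d0) := by
          rw [div_div, sq]
        rw [this]
        have h5 : 2 * m / d0 * (1 / 2) ^ k = 2 * m / (2 ^ k * d0) := by
          rw [one_div, inv_pow]; field_simp
        rw [h5]
        exact div_le_div_of_nonneg_right k3 hp.le
      rw [hsplit]
      refine ⟨i1.union j1, i2.union j2, ?_, ?_⟩
      · rw [setIntegral_union hdisj (e8R_meas _ _ _) i1 j1]
        push_cast; linarith
      · rw [setIntegral_union hdisj (e8R_meas _ _ _) i2 j2]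
        have h5 : 4 * m / d0 * (1 - (1 / 2) ^ (k + 1)) = 4 * m / d0 * (1 - (1 / 2) ^ k) + 2 * m / d0 * (1 / 2) ^ k := by
          rw [pow_succ]; ring
        rw [h5]; linarith

/-- all shells up to d1 -/
theorem e8_shell2 (v : ℝ → ℝ) (hv : ∀ t, 0 ≤ v t) (x d0 d1 m : ℝ) (E0 : Set ℝ) (hd0 : 0 < d0) (hd : d0 ≤ d1)
    (hE0 : E0 ⊆ Icc (x - d0) (x + d0)) (hint : IntegrableOn v (Icc (x - d1) (x + d1))) (hm0 : 0 ≤ m)
    (hm : ∀ d, d0 ≤ d → d ≤ d1 → ∫ t in Icc (x - d) (x + d) \ E0, v t ≤ m * d) :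
    IntegrableOn (fun t => v t / |t - x|) (e8R x d0 d1) ∧
    IntegrableOn (fun t => v t / |t - x| ^ 2) (e8R x d0 d1) ∧
    ∫ t in e8R x d0 d1, v t / |t - x| ≤ 2 * m * (Real.logb 2 (d1 / d0) + 1) ∧
    ∫ t in e8R x d0 d1, v t / |t - x| ^ 2 ≤ 4 * m / d0 := by
  set k := ⌈Real.logb 2 (d1 / d0)⌉₊ with hk
  have hlog0 : 0 ≤ Real.logb 2 (d1 / d0) := Real.logb_nonneg (by norm_num) (by rw [le_div_iff₀ hd0]; linarith)
  have hk1 : (k : ℝ) ≤ Real.logb 2 (d1 / d0) + 1 := (Nat.ceil_lt_add_one hlog0).le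
  have hk2 : d1 ≤ 2 ^ k * d0 := by
    have h1 : Real.logb 2 (d1 / d0) ≤ (k : ℝ) := Nat.le_ceil _
    have h2 : d1 / d0 ≤ 2 ^ (k : ℝ) := by
      rw [← Real.logb_le_iff_le_rpow (by norm_num) (by positivity [lt_of_lt_of_le hd0 hd])]
      exact h1
    rw [Real.rpow_natCast, div_le_iff₀ hd0] at h2
    exact h2
  obtain ⟨i1, i2, i3, i4⟩ := e8_shell v hv x d0 d1 m E0 hd0 hd hE0 hint hm0 hm k
  rw [min_eq_right hk2] at i1 i2 i3 i4
  refine ⟨i1, i2, i3.trans ?_, i4.trans ?_⟩
  · exact mul_le_mul_of_nonneg_left hk1 (by positivity)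
  · have h4 : 0 ≤ 4 * m / d0 := by positivity
    have : (0:ℝ) ≤ (1 / 2) ^ k := by positivity
    nlinarith

/-- decomposition of the Poisson integral -/
theorem e8_Ydec (v : ℝ → ℝ) (hv : ∀ t, 0 ≤ v t) (x r d0 d1 M0 M1 M2 : ℝ) (E0 : Set ℝ) (hE0m : MeasurableSet E0)
    (hr : 0 < r) (hd0 : 0 < d0) (hd : d0 ≤ d1)
    (hE0 : E0 ⊆ Icc (x - d0) (x + d0)) (hint : IntegrableOn v (Icc (x - d1) (x + d1)))
    (hP : ∀ r : ℝ, 0 < r → Integrable (fun t => v t * (r / ((t - x) ^ 2 + r ^ 2))))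
    (h0 : ∫ t in E0, v t ≤ M0) (h1 : ∫ t in Icc (x - d0) (x + d0) \ E0, v t ≤ M1)
    (hi2 : IntegrableOn (fun t => v t / |t - x| ^ 2) (e8R x d0 d1))
    (h2 : ∫ t in e8R x d0 d1, v t / |t - x| ^ 2 ≤ M2) :
    ∫ t, v t * (r / ((t - x) ^ 2 + r ^ 2)) ≤
      (M0 + M1) / r + r * M2 + 2 * r / d1 * ∫ t, v t * (d1 / ((t - x) ^ 2 + d1 ^ 2)) := by
  have hd1 : 0 < d1 := lt_of_lt_of_le hd0 hd
  set B := Icc (x - d0) (x + d0) \ E0 with hB
  have hBm : MeasurableSet B := measurableSet_Icc.diff hE0m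
  have hintB0 : IntegrableOn v (Icc (x - d0) (x + d0)) := hint.mono_set (Icc_subset_Icc (by linarith) (by linarith))
  have iE : Integrable (E0.indicator (fun t => v t / r)) :=
    (integrable_indicator_iff hE0m).2 ((hintB0.mono_set hE0).div_const r)
  have iB : Integrable (B.indicator (fun t => v t / r)) :=
    (integrable_indicator_iff hBm).2 ((hintB0.mono_set sdiff_subset).div_const r)
  have iR : Integrable ((e8R x d0 d1).indicator (fun t => r * (v t / |t - x| ^ 2))) :=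
    (integrable_indicator_iff (e8R_meas _ _ _)).2 (hi2.const_mul r)
  have iP : Integrable (fun t => 2 * r / d1 * (v t * (d1 / ((t - x) ^ 2 + d1 ^ 2)))) := (hP d1 hd1).const_mul _
  have hpt : ∀ t, v t * (r / ((t - x) ^ 2 + r ^ 2)) ≤
      (E0.indicator (fun t => v t / r) t + B.indicator (fun t => v t / r) t) +
      ((e8R x d0 d1).indicator (fun t => r * (v t / |t - x| ^ 2)) t + 2 * r / d1 * (v t * (d1 / ((t - x) ^ 2 + d1 ^ 2)))) := by
    intro t
    have n1 : 0 ≤ E0.indicator (fun t => v t / r) t := indicator_nonneg (fun t _ => div_nonneg (hv t) hr.le) t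
    have n2 : 0 ≤ B.indicator (fun t => v t / r) t := indicator_nonneg (fun t _ => div_nonneg (hv t) hr.le) t
    have n3 : 0 ≤ (e8R x d0 d1).indicator (fun t => r * (v t / |t - x| ^ 2)) t :=
      indicator_nonneg (fun t _ => mul_nonneg hr.le (div_nonneg (hv t) (sq_nonneg _))) t
    have n4 : 0 ≤ 2 * r / d1 * (v t * (d1 / ((t - x) ^ 2 + d1 ^ 2))) := by
      have := hv t
      positivity
    have hA : v t * (r / ((t - x) ^ 2 + r ^ 2)) ≤ v t / r := by
      rw [div_eq_mul_inv (v t) r]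
      apply mul_le_mul_of_nonneg_left _ (hv t)
      rw [div_le_iff₀ (by positivity), ← div_eq_inv_mul, le_div_iff₀ hr]
      nlinarith [sq_nonneg (t - x)]
    by_cases c1 : |t - x| ≤ d0
    · have hmem : t ∈ Icc (x - d0) (x + d0) := by
        have := abs_le.1 c1
        exact ⟨by linarith, by linarith⟩
      by_cases c2 : t ∈ E0
      · have : E0.indicator (fun t => v t / r) t = v t / r := indicator_of_mem c2 _
        linarith
      · have : B.indicator (fun t => v t / r) t = v t / r := indicator_of_mem (show t ∈ B from ⟨hmem, c2⟩) _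
        linarith
    · have c1' : d0 < |t - x| := not_le.1 c1
      by_cases c2 : |t - x| ≤ d1
      · have h3 : (e8R x d0 d1).indicator (fun t => r * (v t / |t - x| ^ 2)) t = r * (v t / |t - x| ^ 2) :=
          indicator_of_mem (show t ∈ e8R x d0 d1 from ⟨c1', c2⟩) _
        have h4 : v t * (r / ((t - x) ^ 2 + r ^ 2)) ≤ r * (v t / |t - x| ^ 2) := by
          have h5 : 0 < |t - x| ^ 2 := by positivity [lt_trans hd0 c1']
          rw [← mul_div_assoc, ← mul_div_assoc, mul_comm r (v t), sq_abs]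
          rw [sq_abs] at h5
          exact div_le_div_of_nonneg_left (mul_nonneg (hv t) hr.le) h5 (by nlinarith)
        linarith
      · have c2' : d1 < |t - x| := not_le.1 c2
        have h4 : v t * (r / ((t - x) ^ 2 + r ^ 2)) ≤ 2 * r / d1 * (v t * (d1 / ((t - x) ^ 2 + d1 ^ 2))) := by
          have h5 : d1 ^ 2 < (t - x) ^ 2 := by
            rw [← sq_abs (t - x)]
            exact pow_lt_pow_left₀ c2' hd1.le (by norm_num)
          have h6 : 2 * r / d1 * (v t * (d1 / ((t - x) ^ 2 + d1 ^ 2))) = v t * (2 * r / ((t - x) ^ 2 + d1 ^ 2)) := by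
            field_simp
          rw [h6]
          apply mul_le_mul_of_nonneg_left _ (hv t)
          rw [div_le_div_iff₀ (by positivity) (by positivity)]
          nlinarith [sq_nonneg r, mul_pos hr (lt_trans (by positivity) h5)]
        linarith
  have key : ∀ f1 f2 f3 f4 : ℝ → ℝ, Integrable f1 → Integrable f2 → Integrable f3 → Integrable f4 →
      ∫ t, ((f1 t + f2 t) + (f3 t + f4 t)) = ((∫ t, f1 t) + ∫ t, f2 t) + ((∫ t, f3 t) + ∫ t, f4 t) := by
    intro f1 f2 f3 f4 g1 g2 g3 g4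
    rw [← integral_add g1 g2, ← integral_add g3 g4]
    exact integral_add (g1.add g2) (g3.add g4)
  calc ∫ t, v t * (r / ((t - x) ^ 2 + r ^ 2)) ≤ ∫ t, ((E0.indicator (fun t => v t / r) t + B.indicator (fun t => v t / r) t) +
      ((e8R x d0 d1).indicator (fun t => r * (v t / |t - x| ^ 2)) t + 2 * r / d1 * (v t * (d1 / ((t - x) ^ 2 + d1 ^ 2))))) :=
        integral_mono (hP r hr) ((iE.add iB).add (iR.add iP)) hpt
    _ = ((∫ t in E0, v t) / r + (∫ t in B, v t) / r) + (r * (∫ t in e8R x d0 d1, v t / |t - x| ^ 2) +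
          2 * r / d1 * ∫ t, v t * (d1 / ((t - x) ^ 2 + d1 ^ 2))) := by
        rw [key _ _ _ _ iE iB iR iP,
          integral_indicator hE0m, integral_indicator hBm, integral_indicator (e8R_meas _ _ _),
          integral_div, integral_div, integral_const_mul, integral_const_mul]
    _ ≤ _ := by
        have a0 : (∫ t in E0, v t) / r ≤ M0 / r := div_le_div_of_nonneg_right h0 hr.le
        have a1 : (∫ t in B, v t) / r ≤ M1 / r := div_le_div_of_nonneg_right h1 hr.le
        have a2 : r * (∫ t in e8R x d0 d1, v t / |t - x| ^ 2) ≤ r * M2 := mul_le_mul_of_nonneg_left h2 hr.le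
        rw [add_div]
        linarith

end

end Pool.Agent.Helper75.CV.E8
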