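import Pool.Agent.Helper36.CV.StmtsE

set_option autoImplicit false

namespace Pool.Agent.Helper75.CV.E8

open Complex Filter Topology MeasureTheory Set
open Pool.Agent.Helper36.CV

noncomputable section

/-- standing data of the module E8 -/
structure S8 {Hm Hp : ℝ} {C : Set ℝ} (cd : CD Hm Hp C) (e : Edge cd) (ε K E A U : ℝ) (z : ℤ × ℤ) (G : Gap cd) : Prop where
  par : Par2 ε Hm Hp
  hm : 0 < Hm
  eps : ε ≤ 1 / 10 ^ 8
  el : EL cd e ε K E A
  U0 : 0 < U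
  U2 : U ≤ ε ^ 2
  s1 : A * Real.sqrt E ≤ 10001 / 10000 * U
  s2 : U ≤ 10001 / 10000 * (A * Real.sqrt E)
  e45 : ε ^ (4 / 5 : ℝ) ≤ 1 / 10000
  e19 : ε ^ (19 / 10 : ℝ) ≤ ε
  ar : ∀ W : Gap cd, |W.N - e.N| ≤ 1 → ∃ w : ℤ × ℤ, W.N - e.N = zv w * U ∧ |(|W.mu| * U - |zc w|)| ≤ ε ^ 2
  sq : ∀ w : ℤ × ℤ, 1 ≤ |2 * zv w ^ 2 - 1| * |2 * zc w ^ 2 - 1|
  hz : |zv z - 1 / Real.sqrt 2| ≤ 20 * ε
  hz' : 5 * ε * |zc z| ≤ 1
  GN : G.N = e.N + zv z * U
  Gmu : |(|G.mu| * U - |zc z|)| ≤ ε ^ 2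
  Ght : ∃ t ∈ Ioo G.a G.b, Hm ≤ |(G.m : ℝ)| * vf cd t

theorem e8_h : (7071 / 10000 : ℝ) ≤ 1 / Real.sqrt 2 ∧ 1 / Real.sqrt 2 ≤ 70711 / 100000 ∧ (1 / Real.sqrt 2) ^ 2 = 1 / 2 := by
  have h2 : Real.sqrt 2 ^ 2 = 2 := Real.sq_sqrt (by norm_num)
  have h3 : 0 < Real.sqrt 2 := Real.sqrt_pos.2 (by norm_num)
  refine ⟨?_, ?_, ?_⟩
  · rw [le_div_iff₀ h3]
    nlinarith
  · rw [div_le_iff₀ h3]
    nlinarith
  · rw [div_pow, h2]; norm_num

variable {Hm Hp : ℝ} {C : Set ℝ} {cd : CD Hm Hp C} {e : Edge cd} {ε K E A U : ℝ} {z : ℤ × ℤ} {G : Gap cd}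

namespace S8

theorem ep (S : S8 cd e ε K E A U z G) : 0 < ε := S.par.1

theorem parr (S : S8 cd e ε K E A U z G) : Par ε Hm Hp := ⟨S.par.1, S.hm, S.par.2.1⟩

theorem al (S : S8 cd e ε K E A U z G) : 7070 / 10000 ≤ zv z ∧ zv z ≤ 7072 / 10000 := by
  have h := abs_le.1 S.hz
  obtain ⟨a, b, _⟩ := e8_h
  have := S.eps
  constructor <;> norm_num at * <;> linarith

theorem sA (S : S8 cd e ε K E A U z G) : 0 < A * Real.sqrt E := mul_pos S.el.pA (Real.sqrt_pos.2 S.el.pE)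

theorem Nab (S : S8 cd e ε K E A U z G) : Nf cd G.a = e.N + zv z * U ∧ Nf cd G.b = e.N + zv z * U ∧ Nf cd G.c = e.N + zv z * U := by
  have h : ∀ t ∈ Icc G.a G.b, Nf cd t = e.N + zv z * U := by
    intro t ht
    rw [G.lab t ht, ← S.GN]; rfl
  have hlt := G.lt
  refine ⟨h _ ⟨le_refl _, hlt.le⟩, h _ ⟨hlt.le, le_refl _⟩, h _ ?_⟩
  unfold Gap.c
  constructor <;> linarith

/-- position of the gap -/
theorem pos (S : S8 cd e ε K E A U z G) : e.c + 49 / 100 * E ≤ G.a ∧ G.b ≤ e.c + 51 / 100 * E := by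
  have hE := S.el.pE
  have hA := S.el.pA
  obtain ⟨a1, a2⟩ := S.al
  obtain ⟨n1, n2, _⟩ := S.Nab
  have hs := S.sA
  have h45 := S.e45
  have hs1 := S.s1
  have hs2 := S.s2
  have hU := S.U0
  set σ := A * Real.sqrt E with hσ
  constructor
  · by_contra hcon
    have hcon := not_le.1 hcon
    have h1 := S.el.cr (e.c + 49 / 100 * E) (by linarith) (by linarith)
    have h2 : Real.sqrt (e.c + 49 / 100 * E - e.c) = 7 / 10 * Real.sqrt E := by
      rw [show e.c + 49 / 100 * E - e.c = (7 / 10) ^ 2 * E by ring, Real.sqrt_mul (by positivity), Real.sqrt_sq (by norm_num)]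
    rw [h2] at h1
    have h3 := (abs_le.1 h1).2
    have h4 : Nf cd G.a ≤ Nf cd (e.c + 49 / 100 * E) := cd.re_mono _ _ hcon.le
    have h5 : ε ^ (4 / 5 : ℝ) * A * Real.sqrt E ≤ 1 / 10000 * σ := by
      rw [mul_assoc]; exact mul_le_mul_of_nonneg_right h45 hs.le
    have h6 : A * (7 / 10 * Real.sqrt E) = 7 / 10 * σ := by rw [hσ]; ring
    rw [h6] at h3
    rw [n1] at h4
    have h7 : 7070 / 10000 * U ≤ zv z * U := mul_le_mul_of_nonneg_right a1 hU.le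
    linarith
  · by_contra hcon
    have hcon := not_le.1 hcon
    have h1 := S.el.cr (e.c + 51 / 100 * E) (by linarith) (by linarith)
    have h2 : 714 / 1000 * Real.sqrt E ≤ Real.sqrt (e.c + 51 / 100 * E - e.c) := by
      rw [show e.c + 51 / 100 * E - e.c = 51 / 100 * E by ring, Real.sqrt_mul (by norm_num : (0:ℝ) ≤ 51 / 100)]
      apply mul_le_mul_of_nonneg_right _ (Real.sqrt_nonneg _)
      rw [Real.le_sqrt' (by norm_num : (0:ℝ) < 714 / 1000)]; norm_num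
    have h3 := (abs_le.1 h1).1
    have h4 : Nf cd (e.c + 51 / 100 * E) ≤ Nf cd G.b := cd.re_mono _ _ hcon.le
    have h5 : ε ^ (4 / 5 : ℝ) * A * Real.sqrt E ≤ 1 / 10000 * σ := by
      rw [mul_assoc]; exact mul_le_mul_of_nonneg_right h45 hs.le
    have h6 : 714 / 1000 * σ ≤ A * Real.sqrt (e.c + 51 / 100 * E - e.c) := by
      calc 714 / 1000 * σ = A * (714 / 1000 * Real.sqrt E) := by rw [hσ]; ring
        _ ≤ _ := mul_le_mul_of_nonneg_left h2 hA.le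
    rw [n2] at h4
    have h7 : zv z * U ≤ 7072 / 10000 * U := mul_le_mul_of_nonneg_right a2 hU.le
    linarith

theorem cc (S : S8 cd e ε K E A U z G) : e.c + 49 / 100 * E ≤ G.c ∧ G.c ≤ e.c + 51 / 100 * E := by
  obtain ⟨h1, h2⟩ := S.pos
  have := G.lt
  unfold Gap.c
  constructor <;> linarith

/-- size of the conjugate -/
theorem conj (S : S8 cd e ε K E A U z G) : 1 ≤ 114 * ε * |zc z| ^ 2 ∧ 900 ≤ |zc z| := by
  have h := abs_le.1 S.hz
  obtain ⟨a, b, c⟩ := e8_h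
  obtain ⟨a1, a2⟩ := S.al
  have hε := S.ep
  have heps := S.eps
  have hq := S.sq z
  set h0 := 1 / Real.sqrt 2 with hh
  have e1 : 2 * zv z ^ 2 - 1 = 2 * (zv z - h0) * (zv z + h0) := by
    have : 2 * (zv z - h0) * (zv z + h0) = 2 * zv z ^ 2 - 2 * h0 ^ 2 := by ring
    rw [this, c]; norm_num
  have e2 : |2 * zv z ^ 2 - 1| ≤ 57 * ε := by
    rw [e1, abs_mul, abs_mul, abs_of_nonneg (by norm_num : (0:ℝ) ≤ 2), abs_of_nonneg (by linarith : 0 ≤ zv z + h0)]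
    have h1 : |zv z - h0| ≤ 20 * ε := S.hz
    have h2 : zv z + h0 ≤ 14144 / 10000 := by linarith
    have h3 : 0 ≤ zv z + h0 := by linarith
    calc 2 * |zv z - h0| * (zv z + h0) ≤ 2 * (20 * ε) * (14144 / 10000) := by
          apply mul_le_mul (by linarith) h2 h3 (by positivity)
      _ ≤ 57 * ε := by nlinarith
  have e3 : 1 ≤ 57 * ε * |2 * zc z ^ 2 - 1| := hq.trans (mul_le_mul_of_nonneg_right e2 (abs_nonneg _))
  have e4 : |2 * zc z ^ 2 - 1| ≤ 2 * |zc z| ^ 2 := by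
    rw [sq_abs]
    rw [abs_le]
    have h1 : 0 ≤ zc z ^ 2 := sq_nonneg _
    constructor
    · by_contra hcon
      have hcon := not_le.1 hcon
      -- then 4 zc^2 < 1, |2zc^2-1| ≤ 1
      have h2 : |2 * zc z ^ 2 - 1| ≤ 1 := by
        rw [abs_le]; constructor <;> nlinarith
      have : 57 * ε * |2 * zc z ^ 2 - 1| ≤ 57 * ε * 1 := mul_le_mul_of_nonneg_left h2 (by positivity)
      norm_num at heps
      linarith
    · linarith
  have e5 : 1 ≤ 114 * ε * |zc z| ^ 2 := by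
    calc 1 ≤ 57 * ε * |2 * zc z ^ 2 - 1| := e3
      _ ≤ 57 * ε * (2 * |zc z| ^ 2) := mul_le_mul_of_nonneg_left e4 (by positivity)
      _ = _ := by ring
  refine ⟨e5, ?_⟩
  by_contra hcon
  have hcon := not_le.1 hcon
  have h1 : |zc z| ^ 2 ≤ 900 ^ 2 := pow_le_pow_left₀ (abs_nonneg _) hcon.le 2
  have h2 : 114 * ε * |zc z| ^ 2 ≤ 114 * ε * 900 ^ 2 := mul_le_mul_of_nonneg_left h1 (by positivity)
  have h3 : 114 * ε * 900 ^ 2 < 1 := by norm_num at heps; linarith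
  linarith

theorem mu1000 (S : S8 cd e ε K E A U z G) : 1000 ≤ |G.mu| := by
  obtain ⟨_, h1⟩ := S.conj
  have h2 := (abs_le.1 S.Gmu).1
  have h3 := S.U2
  have hε := S.ep
  have heps := S.eps
  have hU := S.U0
  have h4 : ε ^ 2 ≤ 1 / 10 ^ 16 := by
    calc ε ^ 2 ≤ (1 / 10 ^ 8) ^ 2 := pow_le_pow_left₀ hε.le heps 2
      _ = _ := by norm_num
  by_contra hcon
  have hcon := not_le.1 hcon
  have h5 : |G.mu| * U ≤ 1000 * (1 / 10 ^ 16) := mul_le_mul hcon.le (h3.trans h4) hU.le (by norm_num)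
  norm_num at h5 h4
  linarith

/-- product kk * s -/
theorem kks (S : S8 cd e ε K E A U z G) (h4 : ST_Q4) (h2 : ST_P2) :
    0 < G.kk ∧ 0 < G.s ∧ G.kk = 2 * vf cd G.c / G.s ∧ 0 < vf cd G.c ∧ G.kk * G.s * |zc z| ≤ 51 / 100 * ε * U := by
  obtain ⟨q1, q2, q3, q4, _⟩ := h2 Hm Hp C cd S.hm
  obtain ⟨_, _, _, _, g1, g2, g3⟩ := q4 G
  have hs : 0 < G.s := by unfold Gap.s; linarith [G.lt]
  have heps := S.eps
  have hε := S.ep
  obtain ⟨_, k2, _⟩ := h4 ε Hm Hp C cd S.parr (heps.trans (by norm_num))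
  have k3 := k2 G
  obtain ⟨_, c1⟩ := S.conj
  have m1 := (abs_le.1 S.Gmu).1
  have hU := S.U0
  refine ⟨g2, hs, g1, g3, ?_⟩
  have h5 : ε ^ 2 ≤ 1 / 10 ^ 16 := by
    calc ε ^ 2 ≤ (1 / 10 ^ 8) ^ 2 := pow_le_pow_left₀ hε.le heps 2
      _ = _ := by norm_num
  have h6 : |zc z| * (999 / 1000) ≤ |G.mu| * U := by norm_num at h5; linarith
  have hks : 0 < G.kk * G.s := mul_pos g2 hs
  have h7 : G.kk * G.s * (|zc z| * (999 / 1000)) ≤ G.kk * G.s * (|G.mu| * U) := mul_le_mul_of_nonneg_left h6 hks.le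
  have h8 : G.kk * G.s * (|G.mu| * U) = (|G.mu| * G.kk * G.s) * U := by ring
  rw [h8] at h7
  have h9 : (|G.mu| * G.kk * G.s) * U ≤ ε / 2 * (1 + 98 * ε) * U := mul_le_mul_of_nonneg_right k3 hU.le
  have h10 : ε / 2 * (1 + 98 * ε) * U ≤ ε / 2 * (1001 / 1000) * U := by
    apply mul_le_mul_of_nonneg_right _ hU.le
    apply mul_le_mul_of_nonneg_left _ (by positivity)
    norm_num at heps; linarith
  have h11 : 0 < ε * U := mul_pos hε hU
  nlinarith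

/-- the gap is small -/
theorem small (S : S8 cd e ε K E A U z G) (h4 : ST_Q4) (h2 : ST_P2) (h3 : ST_P3) :
    G.s * |zc z| ≤ 6 * ε * E := by
  obtain ⟨k1, k2, k3, k4, k5⟩ := S.kks h4 h2
  have hE := S.el.pE
  have hA := S.el.pA
  have hε := S.ep
  have heps := S.eps
  have hU := S.U0
  obtain ⟨_, c1⟩ := S.conj
  obtain ⟨cc1, cc2⟩ := S.cc
  obtain ⟨_, _, hp⟩ := h3 Hm Hp C cd G.a G.b G.N G.lt (fun t ht => G.lab t ht)
  have hp1 := hp (E / 4) (by linarith)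
  have hlo := S.el.lo G.c (E / 4) (by linarith) (by linarith) (by linarith) (by linarith)
  have hsE : Real.sqrt E * Real.sqrt E = E := Real.mul_self_sqrt hE.le
  have hsE0 : 0 < Real.sqrt E := Real.sqrt_pos.2 hE
  have h5 : A * Real.sqrt E / 40 ≤ Yf cd G.c (E / 4) := by
    have : Real.sqrt E * (A * Real.sqrt E / 40) ≤ Real.sqrt E * Yf cd G.c (E / 4) := by
      have e1 : Real.sqrt E * (A * Real.sqrt E / 40) = (E / 4 * A) / 10 := by
        calc Real.sqrt E * (A * Real.sqrt E / 40) = (Real.sqrt E * Real.sqrt E) * A / 40 := by ring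
          _ = _ := by rw [hsE]; ring
      rw [e1]; linarith
    exact le_of_mul_le_mul_left this hsE0
  have h6 : Yf cd G.c (E / 4) ≤ (E / 4 + G.s / 2) * G.kk := by
    have e1 : Yf cd G.c (E / 4) = (cd.f ((((G.a + G.b) / 2 : ℝ) : ℂ) + ((E / 4 : ℝ) : ℂ) * I) - G.N).im := by
      simp [Yf, Gap.c]
    have e2 : Real.sqrt ((E / 4) ^ 2 + (G.b - G.a) ^ 2 / 4) ≤ E / 4 + G.s / 2 := by
      rw [Real.sqrt_le_left (by linarith)]
      unfold Gap.s
      have : 0 < G.b - G.a := by linarith [G.lt]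
      nlinarith
    have e3 : Yf cd G.c (E / 4) ≤ ‖cd.f ((((G.a + G.b) / 2 : ℝ) : ℂ) + ((E / 4 : ℝ) : ℂ) * I) - G.N‖ := by
      rw [e1]; exact (le_abs_self _).trans (Complex.abs_im_le_norm _)
    refine e3.trans (hp1.trans ?_)
    exact mul_le_mul_of_nonneg_right e2 k1.le
  have h7 : G.s * G.kk * 900 ≤ 51 / 100 * ε * U := by
    have : G.kk * G.s * 900 ≤ G.kk * G.s * |zc z| := mul_le_mul_of_nonneg_left c1 (by positivity)
    linarith
  have hs2 := S.s2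
  have h8 : U ≤ 41 / 4 * E * G.kk := by
    norm_num at heps
    have : ε * U ≤ 1 / 100000000 * U := mul_le_mul_of_nonneg_right heps hU.le
    nlinarith
  have h9 : G.kk * (G.s * |zc z|) ≤ G.kk * (6 * ε * E) := by
    calc G.kk * (G.s * |zc z|) = G.kk * G.s * |zc z| := by ring
      _ ≤ 51 / 100 * ε * U := k5
      _ ≤ 51 / 100 * ε * (41 / 4 * E * G.kk) := mul_le_mul_of_nonneg_left h8 (by positivity)
      _ ≤ G.kk * (6 * ε * E) := by
        have : 0 < ε * E * G.kk := by positivity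
        nlinarith
  exact le_of_mul_le_mul_left h9 k1

/-- height of the gap -/
theorem height (S : S8 cd e ε K E A U z G) (h4 : ST_Q4) (h2 : ST_P2)
    (h6 : ∀ t ∈ Icc G.a G.b, vf cd t ≤ (1 + ε ^ (19 / 10 : ℝ)) * vf cd G.c) :
    ε / 4 * U ≤ vf cd G.c * |zc z| := by
  obtain ⟨k1, k2, k3, k4, k5⟩ := S.kks h4 h2
  have hε := S.ep
  have heps := S.eps
  have hU := S.U0
  obtain ⟨_, c1⟩ := S.conj
  obtain ⟨t, ht, hHm⟩ := S.Ght
  have hv := h6 t ⟨ht.1.le, ht.2.le⟩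
  have h19 := S.e19
  have hv2 : vf cd t ≤ (1 + ε) * vf cd G.c := hv.trans (mul_le_mul_of_nonneg_right (by linarith) k4.le)
  have h5pos : 0 < Real.sqrt 5 := Real.sqrt_pos.2 (by norm_num)
  have hmu : |G.mu| = Real.sqrt 5 * |(G.m : ℝ)| := by
    unfold Gap.mu; rw [abs_mul, abs_of_pos h5pos]
  have h7 : Real.sqrt 5 * Hm ≤ |G.mu| * vf cd t := by
    rw [hmu, mul_assoc]; exact mul_le_mul_of_nonneg_left hHm h5pos.le
  have h8 := S.par.2.2
  have h9 : ε * (1 + 42 * ε) / 4 ≤ |G.mu| * ((1 + ε) * vf cd G.c) := by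
    calc ε * (1 + 42 * ε) / 4 ≤ Real.sqrt 5 * Hm := by linarith
      _ ≤ |G.mu| * vf cd t := h7
      _ ≤ _ := mul_le_mul_of_nonneg_left hv2 (abs_nonneg _)
  have m2 := (abs_le.1 S.Gmu).2
  have h10 : |G.mu| * U ≤ |zc z| * (1 + ε) := by
    have : ε ^ 2 ≤ |zc z| * ε := by nlinarith
    linarith
  have h11 : ε * (1 + 42 * ε) / 4 * U ≤ |zc z| * (1 + ε) * ((1 + ε) * vf cd G.c) := by
    calc ε * (1 + 42 * ε) / 4 * U ≤ |G.mu| * ((1 + ε) * vf cd G.c) * U := mul_le_mul_of_nonneg_right h9 hU.le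
      _ = (|G.mu| * U) * ((1 + ε) * vf cd G.c) := by ring
      _ ≤ _ := mul_le_mul_of_nonneg_right h10 (by positivity)
  have h12 : (1 + ε) ^ 2 ≤ 1 + 42 * ε := by
    norm_num at heps; nlinarith
  have h13 : ε / 4 * U * (1 + 42 * ε) ≤ (vf cd G.c * |zc z|) * (1 + 42 * ε) := by
    calc ε / 4 * U * (1 + 42 * ε) = ε * (1 + 42 * ε) / 4 * U := by ring
      _ ≤ |zc z| * (1 + ε) * ((1 + ε) * vf cd G.c) := h11
      _ = (vf cd G.c * |zc z|) * (1 + ε) ^ 2 := by ring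
      _ ≤ _ := mul_le_mul_of_nonneg_left h12 (by positivity)
  exact le_of_mul_le_mul_right h13 (by positivity)

/-- lower bound for Y -/
theorem Ylow (S : S8 cd e ε K E A U z G) (d : ℝ) (hd : 0 < d) (hdE : d ≤ E) : d * U ≤ 101 / 10 * E * Yf cd G.c d := by
  have hE := S.el.pE
  obtain ⟨cc1, cc2⟩ := S.cc
  have hlo := S.el.lo G.c d (by linarith) (by linarith) hd hdE
  have hsE : Real.sqrt E * Real.sqrt E = E := Real.mul_self_sqrt hE.le
  have hsE0 : 0 < Real.sqrt E := Real.sqrt_pos.2 hE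
  have h1 : d * (A * Real.sqrt E) ≤ 10 * E * Yf cd G.c d := by
    calc d * (A * Real.sqrt E) = (d * A) * Real.sqrt E := by ring
      _ ≤ (10 * Real.sqrt E * Yf cd G.c d) * Real.sqrt E := mul_le_mul_of_nonneg_right hlo hsE0.le
      _ = 10 * (Real.sqrt E * Real.sqrt E) * Yf cd G.c d := by ring
      _ = _ := by rw [hsE]
  have hs2 := S.s2
  have h2 : d * U ≤ d * (10001 / 10000 * (A * Real.sqrt E)) := mul_le_mul_of_nonneg_left hs2 hd.le
  have h3 : 0 ≤ E * Yf cd G.c d := by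
    have := mul_pos hd S.sA
    nlinarith
  nlinarith

/-- upper bound for Y at the scale E/8 -/
theorem Yup (S : S8 cd e ε K E A U z G) : Yf cd G.c (E / 8) ≤ 101 / 1000 * U := by
  have hE := S.el.pE
  have hA := S.el.pA
  have hε := S.ep
  have heps := S.eps
  obtain ⟨cc1, cc2⟩ := S.cc
  have him := S.el.im G.c (E / 8) (by linarith) (by linarith) (by norm_num at heps; nlinarith) (by linarith)
  have h3 := (abs_le.1 him).2
  have hs := S.sA
  have h5 : ε ^ (4 / 5 : ℝ) * A * Real.sqrt E ≤ 1 / 10000 * (A * Real.sqrt E) := by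
    rw [mul_assoc]; exact mul_le_mul_of_nonneg_right S.e45 hs.le
  have h6 : Real.sqrt ((Real.sqrt ((G.c - e.c) ^ 2 + (E / 8) ^ 2) - (G.c - e.c)) / 2) ≤ 9 / 100 * Real.sqrt E := by
    have e1 : 9 / 100 * Real.sqrt E = Real.sqrt ((9 / 100) ^ 2 * E) := by
      rw [Real.sqrt_mul (by positivity), Real.sqrt_sq (by norm_num)]
    rw [e1]
    apply Real.sqrt_le_sqrt
    have e2 : Real.sqrt ((G.c - e.c) ^ 2 + (E / 8) ^ 2) ≤ (G.c - e.c) + 162 / 10000 * E := by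
      rw [Real.sqrt_le_left (by nlinarith)]
      nlinarith
    nlinarith
  have h7 : A * Real.sqrt ((Real.sqrt ((G.c - e.c) ^ 2 + (E / 8) ^ 2) - (G.c - e.c)) / 2) ≤ 9 / 100 * (A * Real.sqrt E) := by
    calc _ ≤ A * (9 / 100 * Real.sqrt E) := mul_le_mul_of_nonneg_left h6 hA.le
      _ = _ := by ring
  have hs1 := S.s1
  have hU := S.U0
  nlinarith

end S8

end

end Pool.Agent.Helper75.CV.E8
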