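import Pool.Agent.Helper75.CV.E8a
import Pool.Agent.Helper75.CV.E8b
import Pool.Agent.Helper75.CV.E8c

set_option autoImplicit false

namespace Pool.Agent.Helper75.CV.E8

open Complex Filter Topology MeasureTheory Set
open Pool.Agent.Helper36.CV

noncomputable section

variable {Hm Hp : ℝ} {C : Set ℝ} {cd : CD Hm Hp C} {e : Edge cd} {ε K E A U : ℝ} {z : ℤ × ℤ} {G : Gap cd}

namespace S8

theorem eps2 (S : S8 cd e ε K E A U z G) : ε ^ 2 ≤ 1 / 10 ^ 16 := by
  calc ε ^ 2 ≤ (1 / 10 ^ 8) ^ 2 := pow_le_pow_left₀ S.ep.le S.eps 2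
    _ = _ := by norm_num

/-- gaps near G -/
theorem gapW (S : S8 cd e ε K E A U z G) (hP1 : ST_P1) (h2 : ST_P2) (W : Gap cd) (d : ℝ)
    (hd : 0 < d) (hd8 : d ≤ E / 8) (hM : W.Meets G.c d) :
    ∃ D : ℝ, 0 < D ∧ D ≤ 11 / 100 ∧ D ≤ 12 * Yf cd G.c d / U + 20 * ε ∧
      ∃ y : ℝ, 0 ≤ y ∧ 165 / 1000 ≤ y ^ 2 * D ∧ |(|W.mu| * U - y)| ≤ ε ^ 2 := by
  obtain ⟨q1, _⟩ := h2 Hm Hp C cd S.hm
  obtain ⟨_, _, _, _, _, p6⟩ := hP1 Hm Hp C cd
  have hE := S.el.pE
  have hA := S.el.pA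
  have hε := S.ep
  have hU := S.U0
  obtain ⟨cc1, cc2⟩ := S.cc
  obtain ⟨M1, M2⟩ := hM
  have hWlt := W.lt
  set t := max W.a (G.c - d) with ht
  have ht1 : W.a ≤ t := le_max_left _ _
  have ht2 : G.c - d ≤ t := le_max_right _ _
  have ht3 : t ≤ W.b := max_le hWlt.le M2
  have ht4 : t ≤ G.c + d := max_le M1 (by linarith)
  have hNt : Nf cd t = W.N := W.lab t ⟨ht1, ht3⟩
  have hdist : |t - G.c| ≤ d := abs_le.2 ⟨by linarith, by linarith⟩
  have h6 := p6 G.c d t G.c hd hdist (by simpa using hd.le)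
  have hNG := S.Nab.2.2
  have hW1 : |W.N - e.N| ≤ 1 := by
    have a1 := q1 t
    have a2 := q1 e.c
    rw [← hNt]
    have : e.N = Nf cd e.c := rfl
    rw [this, abs_le]
    constructor <;> linarith [a1.2.1, a1.2.2.1, a2.2.1, a2.2.2.1]
  obtain ⟨w, hw1, hw2⟩ := S.ar W hW1
  have hs := S.sA
  have hs1 := S.s1
  have hs2 := S.s2
  have hcr := S.el.cr t (by linarith) (by linarith)
  have h5 : ε ^ (4 / 5 : ℝ) * A * Real.sqrt E ≤ 1 / 10000 * (A * Real.sqrt E) := by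
    rw [mul_assoc]; exact mul_le_mul_of_nonneg_right S.e45 hs.le
  rw [hNt, hw1] at hcr
  obtain ⟨hcr1, hcr2⟩ := abs_le.1 hcr
  have l1 : 604 / 1000 * (A * Real.sqrt E) ≤ A * Real.sqrt (t - e.c) := by
    have : 604 / 1000 * Real.sqrt E ≤ Real.sqrt (t - e.c) := by
      have e1 : 604 / 1000 * Real.sqrt E = Real.sqrt ((604 / 1000) ^ 2 * E) := by
        rw [Real.sqrt_mul (by positivity), Real.sqrt_sq (by norm_num)]
      rw [e1]
      apply Real.sqrt_le_sqrt
      nlinarith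
    calc _ = A * (604 / 1000 * Real.sqrt E) := by ring
      _ ≤ _ := mul_le_mul_of_nonneg_left this hA.le
  have l2 : A * Real.sqrt (t - e.c) ≤ 797 / 1000 * (A * Real.sqrt E) := by
    have : Real.sqrt (t - e.c) ≤ 797 / 1000 * Real.sqrt E := by
      have e1 : 797 / 1000 * Real.sqrt E = Real.sqrt ((797 / 1000) ^ 2 * E) := by
        rw [Real.sqrt_mul (by positivity), Real.sqrt_sq (by norm_num)]
      rw [e1]
      apply Real.sqrt_le_sqrt
      nlinarith
    calc _ ≤ A * (797 / 1000 * Real.sqrt E) := mul_le_mul_of_nonneg_left this hA.le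
      _ = _ := by ring
  have z1 : 6038 / 10000 ≤ zv w := by
    have : 6038 / 10000 * U ≤ zv w * U := by linarith
    exact le_of_mul_le_mul_right this hU
  have z2 : zv w ≤ 7972 / 10000 := by
    have : zv w * U ≤ 7972 / 10000 * U := by linarith
    exact le_of_mul_le_mul_right this hU
  obtain ⟨a, b, c⟩ := e8_h
  have hz := S.hz
  have hq := S.sq w
  set h0 := 1 / Real.sqrt 2 with hh
  set D := |zv w - h0| with hD
  have e1 : |2 * zv w ^ 2 - 1| ≤ 30088 / 10000 * D := by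
    have : 2 * zv w ^ 2 - 1 = 2 * (zv w - h0) * (zv w + h0) := by
      have : 2 * (zv w - h0) * (zv w + h0) = 2 * zv w ^ 2 - 2 * h0 ^ 2 := by ring
      rw [this, c]; norm_num
    rw [this, abs_mul, abs_mul, abs_of_nonneg (by norm_num : (0:ℝ) ≤ 2), abs_of_nonneg (by linarith : 0 ≤ zv w + h0), ← hD]
    have h0D : 0 ≤ D := abs_nonneg _
    have h9 : zv w + h0 ≤ 15044 / 10000 := by linarith
    have h10 := mul_le_mul_of_nonneg_left h9 h0D
    linarith
  have e2 : 1 ≤ 30088 / 10000 * D * |2 * zc w ^ 2 - 1| := hq.trans (mul_le_mul_of_nonneg_right e1 (abs_nonneg _))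
  have hDn : 0 ≤ D := abs_nonneg _
  have hD0 : 0 < D := by
    rcases hDn.lt_or_eq with h | h
    · exact h
    · exfalso; rw [← h] at e2; norm_num at e2
  have hD11 : D ≤ 11 / 100 := by
    rw [hD, abs_le]; constructor <;> linarith
  refine ⟨D, hD0, hD11, ?_, |zc w|, abs_nonneg _, ?_, hw2⟩
  · have a1 : D ≤ |zv w - zv z| + |zv z - h0| := by
      have : zv w - h0 = (zv w - zv z) + (zv z - h0) := by ring
      rw [hD, this]; exact abs_add_le _ _
    have a2 : |zv w - zv z| ≤ 12 * Yf cd G.c d / U := by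
      rw [le_div_iff₀ hU]
      have : |zv w - zv z| * U = |Nf cd t - Nf cd G.c| := by
        rw [hNt, hNG, ← abs_of_pos hU, ← abs_mul, abs_of_pos hU]
        congr 1
        linarith
      rw [this]; exact h6
    linarith
  · rw [sq_abs]
    have e3 : |2 * zc w ^ 2 - 1| ≤ 2 * zc w ^ 2 := by
      rw [abs_le]
      have h1 : 0 ≤ zc w ^ 2 := sq_nonneg _
      constructor
      · by_contra hcon
        have hcon := not_le.1 hcon
        have h3 : |2 * zc w ^ 2 - 1| ≤ 1 := by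
          rw [abs_le]; constructor <;> linarith
        have : 30088 / 10000 * D * |2 * zc w ^ 2 - 1| ≤ 30088 / 10000 * D * 1 := mul_le_mul_of_nonneg_left h3 (by positivity)
        linarith
      · linarith
    have e4 : 30088 / 10000 * D * |2 * zc w ^ 2 - 1| ≤ 30088 / 10000 * D * (2 * zc w ^ 2) :=
      mul_le_mul_of_nonneg_left e3 (by positivity)
    linarith

/-- positivity of labels -/
theorem inn (S : S8 cd e ε K E A U z G) (h3 : ∀ t : ℝ, e.c < t → t ≤ e.c + 4 * E → 0 < Nf cd t ∧ Nf cd t < 1)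
    (d : ℝ) (hd8 : d ≤ E / 8) : ∀ t ∈ Icc (G.c - d) (G.c + d), 0 < Nf cd t ∧ Nf cd t < 1 := by
  intro t ht
  obtain ⟨cc1, cc2⟩ := S.cc
  have hE := S.el.pE
  exact h3 t (by linarith [ht.1]) (by linarith [ht.2])

/-- mass of the other gaps near G -/
theorem mass (S : S8 cd e ε K E A U z G) (hP1 : ST_P1) (h2 : ST_P2) (hQ : ST_Q2)
    (h3 : ∀ t : ℝ, e.c < t → t ≤ e.c + 4 * E → 0 < Nf cd t ∧ Nf cd t < 1) (d D0 : ℝ)
    (hd : 0 < d) (hd8 : d ≤ E / 8) (hD0 : 0 < D0) (hD3 : D0 ≤ 3)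
    (hD : 11 / 100 ≤ D0 ∨ 12 * Yf cd G.c d / U + 20 * ε ≤ D0)
    (hc : 784 / 10 * ε * E * Real.sqrt D0 ≤ d) :
    IntegrableOn (vf cd) (Icc (G.c - d) (G.c + d)) ∧
    ∫ t in Icc (G.c - d) (G.c + d) \ Icc G.a G.b, vf cd t ≤ ε ^ 2 * U * (64 * E * D0 + 203 * d * Real.sqrt D0) := by
  have hE := S.el.pE
  have hε := S.ep
  have hU := S.U0
  have he2 := S.eps2
  have heps := S.eps
  have hU2 := S.U2
  set q := Real.sqrt D0 with hq
  have hq0 : 0 < q := Real.sqrt_pos.2 hD0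
  have hqq : q * q = D0 := Real.mul_self_sqrt hD0.le
  have hq2 : q ≤ 2 := by
    rw [hq, Real.sqrt_le_left (by norm_num)]; linarith
  set M := 2 / 5 / (q * U) with hMdef
  have hqU : 0 < q * U := mul_pos hq0 hU
  have hMU : M * U = 2 / 5 / q := by rw [hMdef]; field_simp
  have hM1 : 1 ≤ M := by
    rw [hMdef, le_div_iff₀ hqU]
    norm_num at he2
    nlinarith
  have hYl := S.Ylow d hd (by linarith)
  have hYpos : 0 < Yf cd G.c d := by
    by_contra hcon
    have hcon := not_lt.1 hcon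
    have : 0 < d * U := mul_pos hd hU
    nlinarith
  have hMY : 31 / 10 * ε ≤ M * Yf cd G.c d := by
    have hMM : M * Yf cd G.c d = 2 / 5 * Yf cd G.c d / (q * U) := by rw [hMdef]; ring
    rw [hMM, le_div_iff₀ hqU]
    have h5 : 784 / 10 * ε * E * q * U ≤ 101 / 10 * E * Yf cd G.c d := by
      calc 784 / 10 * ε * E * q * U ≤ d * U := mul_le_mul_of_nonneg_right hc hU.le
        _ ≤ _ := hYl
    have h6 : E * (31 / 10 * ε * (q * U)) ≤ E * (2 / 5 * Yf cd G.c d) := by nlinarith [mul_pos (mul_pos hε hE) hqU]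
    exact le_of_mul_le_mul_left h6 hE
  obtain ⟨r1, r2⟩ := hQ ε Hm Hp C cd S.parr (heps.trans (by norm_num)) G.c d M (Icc G.a G.b) hd hM1 measurableSet_Icc
    (S.inn h3 d hd8) (by
      intro W hW
      by_cases hWG : W = G
      · left; rw [hWG]
      · right
        obtain ⟨D, D1, D2, D3, y, y0, y1, y2⟩ := S.gapW hP1 h2 W d hd hd8 hW
        have hDD : D ≤ D0 := by
          rcases hD with h | h
          · exact D2.trans h
          · exact D3.trans h
        have y3 : 165 / 1000 ≤ (y * q) ^ 2 := by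
          calc 165 / 1000 ≤ y ^ 2 * D := y1
            _ ≤ y ^ 2 * D0 := mul_le_mul_of_nonneg_left hDD (sq_nonneg _)
            _ = (y * q) ^ 2 := by rw [← hqq]; ring
        have y4 : 406 / 1000 ≤ y * q := by
          by_contra hcon
          have hcon := not_le.1 hcon
          have : 0 ≤ y * q := by positivity
          nlinarith
        have y5 := (abs_le.1 y2).1
        have y6 : 2 / 5 / q ≤ |W.mu| * U := by
          rw [div_le_iff₀ hq0]
          norm_num at he2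
          nlinarith
        rw [← hMU] at y6
        exact le_of_mul_le_mul_right y6 hU) hMY
  refine ⟨r1, r2.trans ?_⟩
  rw [mul_assoc]
  apply mul_le_mul_of_nonneg_left _ (sq_nonneg ε)
  have t1 : d / (Yf cd G.c d * M ^ 2) ≤ U * (64 * E * D0) := by
    have hM2 : 0 < Yf cd G.c d * M ^ 2 := by positivity
    rw [div_le_iff₀ hM2]
    have hMM : M ^ 2 * (U * D0) * U = 4 / 25 := by
      calc M ^ 2 * (U * D0) * U = (M * U) ^ 2 * D0 := by ring
        _ = (2 / 5 / q) ^ 2 * (q * q) := by rw [hMU, hqq]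
        _ = 4 / 25 := by field_simp; norm_num
    have : U * d ≤ U * (U * (64 * E * D0) * (Yf cd G.c d * M ^ 2)) := by
      calc U * d = d * U := by ring
        _ ≤ 101 / 10 * E * Yf cd G.c d := hYl
        _ ≤ 64 * E * Yf cd G.c d * (4 / 25) := by nlinarith [mul_pos hE hYpos]
        _ = 64 * E * Yf cd G.c d * (M ^ 2 * (U * D0) * U) := by rw [hMM]
        _ = _ := by ring
    exact le_of_mul_le_mul_left this hU
  have t2 : 81 * d / M ≤ U * (203 * d * q) := by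
    have hM0 : 0 < M := by positivity
    rw [div_le_iff₀ hM0]
    calc 81 * d ≤ 203 * d * (2 / 5) := by nlinarith
      _ = 203 * d * (q * (M * U)) := by rw [hMU]; field_simp
      _ = _ := by ring
  calc _ ≤ U * (64 * E * D0) + U * (203 * d * q) := add_le_add t1 t2
    _ = _ := by ring

/-- mass of G itself -/
theorem massG (S : S8 cd e ε K E A U z G) (h4 : ST_Q4) (h2 : ST_P2) (h3 : ST_P3)
    (h6 : ∀ t ∈ Icc G.a G.b, vf cd t ≤ (1 + ε ^ (19 / 10 : ℝ)) * vf cd G.c) :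
    ∫ t in Icc G.a G.b, vf cd t ≤ 400 * ε ^ 3 * E * U := by
  obtain ⟨k1, k2, k3, k4, k5⟩ := S.kks h4 h2
  obtain ⟨q1, _⟩ := h2 Hm Hp C cd S.hm
  have hsm := S.small h4 h2 h3
  have hε := S.ep
  have heps := S.eps
  have hE := S.el.pE
  have hU := S.U0
  obtain ⟨c1, c2⟩ := S.conj
  have h19 := S.e19
  have hv2 : ∀ t ∈ Icc G.a G.b, ‖vf cd t‖ ≤ G.kk * G.s := by
    intro t ht
    rw [Real.norm_of_nonneg (q1 t).1]
    have e1 : G.kk * G.s = 2 * vf cd G.c := by rw [k3]; field_simp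
    rw [e1]
    refine (h6 t ht).trans (mul_le_mul_of_nonneg_right ?_ k4.le)
    norm_num at heps; linarith
  have h7 := norm_setIntegral_le_of_norm_le_const (μ := volume) (s := Icc G.a G.b) (C := G.kk * G.s)
    (by simp) hv2
  have h8 : ∫ t in Icc G.a G.b, vf cd t ≤ G.kk * G.s * G.s := by
    refine (le_abs_self _).trans ?_
    rw [← Real.norm_eq_abs]
    refine h7.trans (le_of_eq ?_)
    rw [Real.volume_real_Icc_of_le G.lt.le]
    rfl
  have h9 : (G.kk * G.s * G.s) * |zc z| ^ 2 ≤ 306 / 100 * ε ^ 2 * E * U := by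
    calc (G.kk * G.s * G.s) * |zc z| ^ 2 = (G.kk * G.s * |zc z|) * (G.s * |zc z|) := by ring
      _ ≤ (51 / 100 * ε * U) * (6 * ε * E) := mul_le_mul k5 hsm (by positivity) (by positivity)
      _ = _ := by ring
  have h10 : 0 ≤ G.kk * G.s * G.s := by positivity
  calc ∫ t in Icc G.a G.b, vf cd t ≤ G.kk * G.s * G.s := h8
    _ ≤ (G.kk * G.s * G.s) * (114 * ε * |zc z| ^ 2) := by nlinarith
    _ = 114 * ε * ((G.kk * G.s * G.s) * |zc z| ^ 2) := by ring
    _ ≤ 114 * ε * (306 / 100 * ε ^ 2 * E * U) := mul_le_mul_of_nonneg_left h9 (by positivity)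
    _ ≤ _ := by
      have : 0 < ε ^ 3 * E * U := by positivity
      nlinarith

/-- the gap is much smaller than E -/
theorem sE (S : S8 cd e ε K E A U z G) (h4 : ST_Q4) (h2 : ST_P2) (h3 : ST_P3) :
    Icc G.a G.b ⊆ Icc (G.c - ε * E) (G.c + ε * E) ∧ G.s ≤ ε * E ∧ G.s ≤ ε * E / 20 := by
  have hsm := S.small h4 h2 h3
  obtain ⟨c1, c2⟩ := S.conj
  have hε := S.ep
  have hE := S.el.pE
  have hs : 0 < G.s := by unfold Gap.s; linarith [G.lt]
  have h1 : G.s ≤ ε * E / 20 := by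
    have hεE : 0 < ε * E := mul_pos hε hE
    by_contra hcon
    have hcon := not_le.1 hcon
    nlinarith
  have hεE : 0 < ε * E := mul_pos hε hE
  refine ⟨?_, by linarith, h1⟩
  intro t ht
  unfold Gap.s at h1
  unfold Gap.c
  constructor
  · linarith [ht.1, G.lt]
  · linarith [ht.2, G.lt]

/-- upper bound for Y on the scales 32 ε E .. E/8 -/
theorem Yup2 (S : S8 cd e ε K E A U z G) (hP1 : ST_P1) (h2 : ST_P2) (h3 : ST_P3) (hQ : ST_Q2) (h4 : ST_Q4)
    (hin : ∀ t : ℝ, e.c < t → t ≤ e.c + 4 * E → 0 < Nf cd t ∧ Nf cd t < 1)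
    (h6 : ∀ t ∈ Icc G.a G.b, vf cd t ≤ (1 + ε ^ (19 / 10 : ℝ)) * vf cd G.c)
    (r : ℝ) (hr : 32 * ε * E ≤ r) (hr8 : r ≤ E / 8) : Yf cd G.c r * E ≤ 17 / 10 * r * U := by
  have hE := S.el.pE
  have hε := S.ep
  have hU := S.U0
  have heps := S.eps
  obtain ⟨q1, _⟩ := h2 Hm Hp C cd S.hm
  obtain ⟨p1, _⟩ := hP1 Hm Hp C cd
  have hεE : 0 < ε * E := mul_pos hε hE
  have hr0 : 0 < r := by linarith
  have hsq11 : Real.sqrt (11 / 100) ≤ 332 / 1000 := by
    rw [Real.sqrt_le_left (by norm_num)]; norm_num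
  obtain ⟨m1, m2⟩ := S.mass hP1 h2 hQ hin (E / 8) (11 / 100) (by linarith) (le_refl _) (by norm_num) (by norm_num) (Or.inl (le_refl _))
    (by
      have : 784 / 10 * ε * E * Real.sqrt (11 / 100) ≤ 784 / 10 * ε * E * (332 / 1000) := mul_le_mul_of_nonneg_left hsq11 (by positivity)
      linarith)
  have m3 : ∫ t in Icc (G.c - E / 8) (G.c + E / 8) \ Icc G.a G.b, vf cd t ≤ 16 * ε ^ 2 * E * U := by
    refine m2.trans ?_
    have : 203 * (E / 8) * Real.sqrt (11 / 100) ≤ 203 * (E / 8) * (332 / 1000) := mul_le_mul_of_nonneg_left hsq11 (by positivity)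
    have h7 : ε ^ 2 * U * (64 * E * (11 / 100) + 203 * (E / 8) * Real.sqrt (11 / 100)) ≤ ε ^ 2 * U * (16 * E) :=
      mul_le_mul_of_nonneg_left (by linarith) (by positivity)
    linarith
  obtain ⟨s1, s2, s3⟩ := S.sE h4 h2 h3
  have hEmpty : e8R G.c (E / 8) (E / 8) = ∅ := by
    ext t
    simp only [e8R, mem_ofPred_eq, mem_empty_iff_false, iff_false, not_and, not_le]
    intro h; exact h
  have hd := e8_Ydec (vf cd) (fun t => (q1 t).1) G.c r (E / 8) (E / 8) (400 * ε ^ 3 * E * U) (16 * ε ^ 2 * E * U) 0 (Icc G.a G.b)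
    measurableSet_Icc hr0 (by linarith) (le_refl _) (s1.trans (Icc_subset_Icc (by nlinarith) (by nlinarith))) m1
    (fun r' hr' => (p1 G.c r' hr').1) (S.massG h4 h2 h3 h6) m3 (by rw [hEmpty]; simp) (by rw [hEmpty]; simp)
  have hπ := Real.pi_pos
  have hπ3 := Real.pi_gt_three
  have y1 := (p1 G.c r hr0).2
  have y2 := (p1 G.c (E / 8) (by linarith)).2
  have y3 := S.Yup
  have i1 : ∫ t : ℝ, vf cd t * (r / ((t - G.c) ^ 2 + r ^ 2)) = Real.pi * Yf cd G.c r := by
    rw [y1, ← mul_assoc, mul_one_div_cancel hπ.ne', one_mul]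
  have i2 : ∫ t : ℝ, vf cd t * (E / 8 / ((t - G.c) ^ 2 + (E / 8) ^ 2)) = Real.pi * Yf cd G.c (E / 8) := by
    rw [y2, ← mul_assoc, mul_one_div_cancel hπ.ne', one_mul]
  rw [i1, i2] at hd
  -- (M0+M1)/r ≤ 17 ε^2 E U / r ≤ (17/1024) r U / E
  have j1 : (400 * ε ^ 3 * E * U + 16 * ε ^ 2 * E * U) / r * E ≤ 17 / 1024 * r * U := by
    rw [div_mul_eq_mul_div, div_le_iff₀ hr0]
    have a1 : 400 * ε ^ 3 ≤ ε ^ 2 := by
      norm_num at heps
      nlinarith [sq_nonneg ε]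
    have a2 : (32 * ε * E) ^ 2 ≤ r ^ 2 := pow_le_pow_left₀ (by positivity) hr 2
    have a3 : (400 * ε ^ 3 * E * U + 16 * ε ^ 2 * E * U) * E ≤ 17 * ε ^ 2 * E * U * E := by
      have : 400 * ε ^ 3 * (E * U * E) ≤ ε ^ 2 * (E * U * E) := mul_le_mul_of_nonneg_right a1 (by positivity)
      linarith
    have a4 : 17 * ε ^ 2 * E * U * E = 17 / 1024 * U * (32 * ε * E) ^ 2 := by ring
    have a5 : 17 / 1024 * U * (32 * ε * E) ^ 2 ≤ 17 / 1024 * U * r ^ 2 := mul_le_mul_of_nonneg_left a2 (by positivity)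
    calc _ ≤ 17 * ε ^ 2 * E * U * E := a3
      _ ≤ 17 / 1024 * U * r ^ 2 := by rw [a4]; exact a5
      _ = _ := by ring
  have j2 : 2 * r / (E / 8) * (Real.pi * Yf cd G.c (E / 8)) * E ≤ Real.pi * (1616 / 1000 * r * U) := by
    have : 2 * r / (E / 8) * (Real.pi * Yf cd G.c (E / 8)) * E = Real.pi * (16 * r * Yf cd G.c (E / 8)) := by
      field_simp; ring
    rw [this]
    apply mul_le_mul_of_nonneg_left _ hπ.le
    nlinarith
  have j3 : Real.pi * Yf cd G.c r * E ≤ 17 / 1024 * r * U + Real.pi * (1616 / 1000 * r * U) := by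
    have := mul_le_mul_of_nonneg_right hd hE.le
    rw [add_mul, add_mul] at this
    linarith
  have j4 : Real.pi * (Yf cd G.c r * E) ≤ Real.pi * (17 / 10 * r * U) := by
    have hrU : 0 < r * U := mul_pos hr0 hU
    nlinarith
  exact le_of_mul_le_mul_left j4 hπ

/-- unified mass bound -/
theorem mass2 (S : S8 cd e ε K E A U z G) (hP1 : ST_P1) (h2 : ST_P2) (h3 : ST_P3) (hQ : ST_Q2) (h4 : ST_Q4)
    (hin : ∀ t : ℝ, e.c < t → t ≤ e.c + 4 * E → 0 < Nf cd t ∧ Nf cd t < 1)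
    (h6 : ∀ t ∈ Icc G.a G.b, vf cd t ≤ (1 + ε ^ (19 / 10 : ℝ)) * vf cd G.c)
    (d : ℝ) (hd : 2200 * (ε * Real.sqrt ε) * E ≤ d) (hd8 : d ≤ E / 8) :
    IntegrableOn (vf cd) (Icc (G.c - d) (G.c + d)) ∧
    ∫ t in Icc (G.c - d) (G.c + d) \ Icc G.a G.b, vf cd t ≤ 1800 * ε ^ 2 * U * max d (32 * ε * E) := by
  have hE := S.el.pE
  have hε := S.ep
  have hU := S.U0
  have heps := S.eps
  obtain ⟨_, _, p3, _⟩ := hP1 Hm Hp C cd
  have hεE : 0 < ε * E := mul_pos hε hE
  have hsε : 0 < Real.sqrt ε := Real.sqrt_pos.2 hε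
  have hsε2 : Real.sqrt ε * Real.sqrt ε = ε := Real.mul_self_sqrt hε.le
  have hd0 : 0 < d := lt_of_lt_of_le (by positivity) hd
  set Dm := max d (32 * ε * E) with hDm
  have hDm1 : d ≤ Dm := le_max_left _ _
  have hDm2 : 32 * ε * E ≤ Dm := le_max_right _ _
  have hDm8 : Dm ≤ E / 8 := max_le hd8 (by norm_num at heps; nlinarith)
  have hDm0 : 0 < Dm := lt_of_lt_of_le hd0 hDm1
  have hY := S.Yup2 hP1 h2 h3 hQ h4 hin h6 Dm hDm2 hDm8
  have hYm : Yf cd G.c d ≤ Yf cd G.c Dm := (p3 G.c d Dm hd0 hDm1).2.1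
  set D0 := 22 * Dm / E with hD0
  have hD0p : 0 < D0 := by positivity
  have hD0E : D0 * E = 22 * Dm := by rw [hD0]; field_simp
  have hD0le : D0 ≤ 275 / 100 := by
    rw [hD0, div_le_iff₀ hE]; linarith
  have hcond : 12 * Yf cd G.c d / U + 20 * ε ≤ D0 := by
    have a1 : 12 * Yf cd G.c d / U ≤ 204 / 10 * Dm / E := by
      rw [div_le_div_iff₀ hU hE]
      have : 12 * Yf cd G.c d * E ≤ 12 * Yf cd G.c Dm * E := by
        apply mul_le_mul_of_nonneg_right _ hE.le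
        linarith
      linarith
    have a2 : 20 * ε ≤ 16 / 10 * Dm / E := by
      rw [le_div_iff₀ hE]; linarith
    have a3 : D0 = 204 / 10 * Dm / E + 16 / 10 * Dm / E := by rw [hD0]; ring
    linarith
  have hsq : Real.sqrt D0 ≤ 166 / 100 := by
    rw [Real.sqrt_le_left (by norm_num)]; norm_num; linarith
  have hc : 784 / 10 * ε * E * Real.sqrt D0 ≤ d := by
    have b1 : (784 / 10 * ε * E * Real.sqrt D0) ^ 2 ≤ d ^ 2 := by
      have b2 : (784 / 10 * ε * E * Real.sqrt D0) ^ 2 = (784 / 10) ^ 2 * 22 * ε ^ 2 * E * Dm := by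
        calc _ = (784 / 10) ^ 2 * ε ^ 2 * E ^ 2 * (Real.sqrt D0 * Real.sqrt D0) := by ring
          _ = (784 / 10) ^ 2 * ε ^ 2 * E * (D0 * E) := by rw [Real.mul_self_sqrt hD0p.le]; ring
          _ = _ := by rw [hD0E]; ring
      rw [b2]
      rcases le_total (32 * ε * E) d with hcase | hcase
      · have : Dm = d := max_eq_left hcase
        rw [this]
        have b3 : (784 / 10) ^ 2 * 22 * ε ^ 2 * E ≤ 32 * ε * E := by
          have : (784 / 10) ^ 2 * 22 * ε ≤ 32 := by norm_num at heps; linarith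
          have := mul_le_mul_of_nonneg_right this hεE.le
          linarith
        have b4 : (784 / 10) ^ 2 * 22 * ε ^ 2 * E * d ≤ (32 * ε * E) * d := mul_le_mul_of_nonneg_right b3 hd0.le
        nlinarith
      · have : Dm = 32 * ε * E := max_eq_right hcase
        rw [this]
        have b3 : (2200 * (ε * Real.sqrt ε) * E) ^ 2 ≤ d ^ 2 := pow_le_pow_left₀ (by positivity) hd 2
        have b4 : (2200 * (ε * Real.sqrt ε) * E) ^ 2 = 2200 ^ 2 * ε ^ 3 * E ^ 2 := by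
          calc _ = 2200 ^ 2 * ε ^ 2 * (Real.sqrt ε * Real.sqrt ε) * E ^ 2 := by ring
            _ = _ := by rw [hsε2]; ring
        rw [b4] at b3
        refine le_trans ?_ b3
        have : 0 < ε ^ 3 * E ^ 2 := by positivity
        nlinarith
    exact (pow_le_pow_iff_left₀ (by positivity) hd0.le two_ne_zero).1 b1
  obtain ⟨m1, m2⟩ := S.mass hP1 h2 hQ hin d D0 hd0 hd8 hD0p (by linarith) (Or.inr hcond) hc
  refine ⟨m1, m2.trans ?_⟩
  have e1 : 64 * E * D0 + 203 * d * Real.sqrt D0 ≤ 1800 * Dm := by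
    have a1 : 64 * E * D0 = 1408 * Dm := by
      calc 64 * E * D0 = 64 * (D0 * E) := by ring
        _ = _ := by rw [hD0E]; ring
    have a2 : 203 * d * Real.sqrt D0 ≤ 203 * Dm * (166 / 100) :=
      mul_le_mul (by linarith) hsq (Real.sqrt_nonneg _) (by positivity)
    linarith
  calc _ ≤ ε ^ 2 * U * (1800 * Dm) := mul_le_mul_of_nonneg_left e1 (by positivity)
    _ = _ := by ring

end S8

end

end Pool.Agent.Helper75.CV.E8
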