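import Pool.Agent.Helper75.CV.E8d

set_option autoImplicit false

namespace Pool.Agent.Helper75.CV.E8

open Complex Filter Topology MeasureTheory Set
open Pool.Agent.Helper36.CV

noncomputable section

variable {Hm Hp : ℝ} {C : Set ℝ} {cd : CD Hm Hp C} {e : Edge cd} {ε K E A U : ℝ} {z : ℤ × ℤ} {G : Gap cd}

theorem e8_qc (a b x r : ℝ) (hr : 0 < r) : r ≤ ‖qc a b ((x : ℂ) + (r : ℂ) * I)‖ := by
  have h12 : (1 / 2 : ℂ) = ((1 / 2 : ℝ) : ℂ) := by push_cast; rfl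
  have key : ∀ y : ℝ, r ^ (1 / 2 : ℝ) ≤ ‖((x : ℂ) + (r : ℂ) * I - (y : ℂ)) ^ (1 / 2 : ℂ)‖ := by
    intro y
    rw [h12, Complex.norm_cpow_real]
    apply Real.rpow_le_rpow hr.le _ (by norm_num)
    have h1 : ((x : ℂ) + (r : ℂ) * I - (y : ℂ)).im = r := by simp
    calc r = |((x : ℂ) + (r : ℂ) * I - (y : ℂ)).im| := by rw [h1, abs_of_pos hr]
      _ ≤ _ := Complex.abs_im_le_norm _
  unfold qc
  rw [norm_mul]
  have h2 : r = r ^ (1 / 2 : ℝ) * r ^ (1 / 2 : ℝ) := by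
    rw [← Real.rpow_add hr]; norm_num
  calc r = r ^ (1 / 2 : ℝ) * r ^ (1 / 2 : ℝ) := h2
    _ ≤ _ := mul_le_mul (key a) (key b) (by positivity) (norm_nonneg _)

theorem e8_qabs (G : Gap cd) (t : ℝ) : |G.q t| = Real.sqrt ((t - G.a) * (t - G.b)) := by
  unfold Gap.q qr
  split_ifs
  · exact abs_of_nonneg (Real.sqrt_nonneg _)
  · rw [abs_neg]; exact abs_of_nonneg (Real.sqrt_nonneg _)

theorem e8_kap (κ ε K3 l2 L : ℝ) (hε : 0 < ε) (heps : ε ≤ 1 / 10 ^ 8) (hκ0 : 0 < κ) (hK3 : 1 ≤ K3) (hK3ε : K3 * ε ≤ 1 / 2)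
    (hl2 : l2 ≤ 1) (hL : 1 < κ → L ≤ Real.log κ + Real.log (1 / ε))
    (hκb : Real.log κ ≤ 14 / 10 + K3 * (ε * (1 + l2 + L) + 1 / 4)) : κ ≤ Real.exp (3 + 5 * K3) := by
  rcases le_or_gt κ 1 with hc | hc
  · exact hc.trans (Real.one_le_exp (by linarith))
  · have h10 := hL hc
    have h1ε : 0 < 1 / ε := by positivity
    have h11 : Real.log (1 / ε) ≤ 1 / ε - 1 := Real.log_le_sub_one_of_pos h1ε
    have h12 : ε * Real.log (1 / ε) ≤ 1 := by
      calc ε * Real.log (1 / ε) ≤ ε * (1 / ε - 1) := mul_le_mul_of_nonneg_left h11 hε.le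
        _ = 1 - ε := by field_simp
        _ ≤ 1 := by linarith
    have h13 : ε * (1 + l2 + L) ≤ 2 * ε + ε * Real.log κ + 1 := by
      have : ε * (1 + l2 + L) ≤ ε * (1 + 1 + (Real.log κ + Real.log (1 / ε))) :=
        mul_le_mul_of_nonneg_left (by linarith) hε.le
      linarith
    have hK30 : (0:ℝ) ≤ K3 := by linarith
    have h14 : Real.log κ ≤ 14 / 10 + K3 * (2 * ε + ε * Real.log κ + 1 + 1 / 4) := by
      refine hκb.trans ?_
      have := mul_le_mul_of_nonneg_left (add_le_add_left h13 (1 / 4)) hK30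
      linarith
    have hL0 : 0 ≤ Real.log κ := Real.log_nonneg hc.le
    have h15 : K3 * ε * Real.log κ ≤ 1 / 2 * Real.log κ := mul_le_mul_of_nonneg_right hK3ε hL0
    have h16 : Real.log κ ≤ 3 + 5 * K3 := by
      have h17 : K3 * (2 * ε) ≤ K3 * (1 / 10) := mul_le_mul_of_nonneg_left (by norm_num at heps; linarith) hK30
      have h18 : K3 * (2 * ε + ε * Real.log κ + 1 + 1 / 4) = K3 * (2 * ε) + K3 * ε * Real.log κ + 5 / 4 * K3 := by ring
      rw [h18] at h14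
      linarith
    rw [← Real.exp_log hκ0]
    exact Real.exp_le_exp.2 h16

namespace S8

/-- upper bound for Y on the scales ε E/40 .. E/8 -/
theorem Yup3 (S : S8 cd e ε K E A U z G) (hP1 : ST_P1) (h2 : ST_P2) (h3 : ST_P3) (hQ : ST_Q2) (h4 : ST_Q4)
    (hin : ∀ t : ℝ, e.c < t → t ≤ e.c + 4 * E → 0 < Nf cd t ∧ Nf cd t < 1)
    (h6 : ∀ t ∈ Icc G.a G.b, vf cd t ≤ (1 + ε ^ (19 / 10 : ℝ)) * vf cd G.c)
    (r : ℝ) (hr : ε * E / 40 ≤ r) (hr8 : r ≤ E / 8) : Yf cd G.c r * E ≤ 2 * r * U := by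
  have hE := S.el.pE
  have hε := S.ep
  have hU := S.U0
  have heps := S.eps
  obtain ⟨q1, _⟩ := h2 Hm Hp C cd S.hm
  obtain ⟨p1, _⟩ := hP1 Hm Hp C cd
  have hεE : 0 < ε * E := mul_pos hε hE
  have hr0 : 0 < r := by linarith
  have hsε : 0 < Real.sqrt ε := Real.sqrt_pos.2 hε
  have hsε2 : Real.sqrt ε ≤ 1 / 10000 := by
    rw [Real.sqrt_le_left (by norm_num)]; norm_num at heps ⊢; linarith
  have hd0 : 0 < 32 * ε * E := by positivity
  have hd01 : 32 * ε * E ≤ E / 8 := by norm_num at heps; nlinarith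
  have hlow : 2200 * (ε * Real.sqrt ε) * E ≤ 32 * ε * E := by
    have : ε * E * Real.sqrt ε ≤ ε * E * (1 / 10000) := mul_le_mul_of_nonneg_left hsε2 hεE.le
    nlinarith
  have hm : ∀ d, 32 * ε * E ≤ d → d ≤ E / 8 → ∫ t in Icc (G.c - d) (G.c + d) \ Icc G.a G.b, vf cd t ≤ 1800 * ε ^ 2 * U * d := by
    intro d h1 h7
    have h5 := (S.mass2 hP1 h2 h3 hQ h4 hin h6 d (hlow.trans h1) h7).2
    rwa [max_eq_left h1] at h5
  have hI := (S.mass2 hP1 h2 h3 hQ h4 hin h6 (E / 8) (hlow.trans hd01) (le_refl _)).1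
  obtain ⟨s1, s2, s3⟩ := S.sE h4 h2 h3
  have hsub : Icc G.a G.b ⊆ Icc (G.c - 32 * ε * E) (G.c + 32 * ε * E) := s1.trans (Icc_subset_Icc (by linarith) (by linarith))
  obtain ⟨_, i2, _, i4⟩ := e8_shell2 (vf cd) (fun t => (q1 t).1) G.c (32 * ε * E) (E / 8) (1800 * ε ^ 2 * U) (Icc G.a G.b)
    hd0 hd01 hsub hI (by positivity) hm
  have hd := e8_Ydec (vf cd) (fun t => (q1 t).1) G.c r (32 * ε * E) (E / 8) (400 * ε ^ 3 * E * U)
    (1800 * ε ^ 2 * U * (32 * ε * E)) (4 * (1800 * ε ^ 2 * U) / (32 * ε * E)) (Icc G.a G.b)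
    measurableSet_Icc hr0 hd0 hd01 hsub hI
    (fun r' hr' => (p1 G.c r' hr').1) (S.massG h4 h2 h3 h6) (hm _ (le_refl _) hd01) i2 i4
  have hπ := Real.pi_pos
  have hπ3 := Real.pi_gt_three
  have y1 := (p1 G.c r hr0).2
  have y2 := (p1 G.c (E / 8) (by linarith)).2
  have y3 := S.Yup
  have i1 : ∫ t : ℝ, vf cd t * (r / ((t - G.c) ^ 2 + r ^ 2)) = Real.pi * Yf cd G.c r := by
    rw [y1, ← mul_assoc, mul_one_div_cancel hπ.ne', one_mul]
  have i2' : ∫ t : ℝ, vf cd t * (E / 8 / ((t - G.c) ^ 2 + (E / 8) ^ 2)) = Real.pi * Yf cd G.c (E / 8) := by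
    rw [y2, ← mul_assoc, mul_one_div_cancel hπ.ne', one_mul]
  rw [i1, i2'] at hd
  have hrU : 0 < r * U := mul_pos hr0 hU
  have j1 : (400 * ε ^ 3 * E * U + 1800 * ε ^ 2 * U * (32 * ε * E)) / r * E ≤ 93 / 100 * (r * U) := by
    rw [div_mul_eq_mul_div, div_le_iff₀ hr0]
    have a2 : (ε * E / 40) ^ 2 ≤ r ^ 2 := pow_le_pow_left₀ (by positivity) hr 2
    have a3 : (400 * ε ^ 3 * E * U + 1800 * ε ^ 2 * U * (32 * ε * E)) * E = 92800000 * ε * U * (ε * E / 40) ^ 2 := by ring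
    rw [a3]
    calc _ ≤ 92800000 * ε * U * r ^ 2 := mul_le_mul_of_nonneg_left a2 (by positivity)
      _ ≤ 93 / 100 * U * r ^ 2 := by
        apply mul_le_mul_of_nonneg_right _ (sq_nonneg r)
        apply mul_le_mul_of_nonneg_right _ hU.le
        norm_num at heps; linarith
      _ = _ := by ring
  have j0 : r * (4 * (1800 * ε ^ 2 * U) / (32 * ε * E)) * E ≤ 1 / 1000 * (r * U) := by
    have : r * (4 * (1800 * ε ^ 2 * U) / (32 * ε * E)) * E = 225 * ε * (r * U) := by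
      field_simp; ring
    rw [this]
    apply mul_le_mul_of_nonneg_right _ hrU.le
    norm_num at heps; linarith
  have j2 : 2 * r / (E / 8) * (Real.pi * Yf cd G.c (E / 8)) * E ≤ Real.pi * (1616 / 1000 * r * U) := by
    have : 2 * r / (E / 8) * (Real.pi * Yf cd G.c (E / 8)) * E = Real.pi * (16 * r * Yf cd G.c (E / 8)) := by
      field_simp; ring
    rw [this]
    apply mul_le_mul_of_nonneg_left _ hπ.le
    nlinarith
  have j3 : Real.pi * Yf cd G.c r * E ≤ 93 / 100 * (r * U) + 1 / 1000 * (r * U) + Real.pi * (1616 / 1000 * r * U) := by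
    have := mul_le_mul_of_nonneg_right hd hE.le
    rw [add_mul, add_mul] at this
    linarith
  have j4 : Real.pi * (Yf cd G.c r * E) ≤ Real.pi * (2 * r * U) := by
    nlinarith
  exact le_of_mul_le_mul_left j4 hπ

/-- label window of G -/
theorem LWG (S : S8 cd e ε K E A U z G) (hP1 : ST_P1) (h2 : ST_P2) (h3 : ST_P3) (hQ : ST_Q2) (h4 : ST_Q4)
    (hin : ∀ t : ℝ, e.c < t → t ≤ e.c + 4 * E → 0 < Nf cd t ∧ Nf cd t < 1)
    (h6 : ∀ t ∈ Icc G.a G.b, vf cd t ≤ (1 + ε ^ (19 / 10 : ℝ)) * vf cd G.c) :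
    G.LW (ε * E / 10) := by
  intro t ht
  have hE := S.el.pE
  have hε := S.ep
  have hU := S.U0
  have heps := S.eps
  have he2 := S.eps2
  have hU2 := S.U2
  obtain ⟨_, _, _, _, _, p6⟩ := hP1 Hm Hp C cd
  have hεE : 0 < ε * E := mul_pos hε hE
  have h5 := p6 G.c (ε * E / 10) t G.c (by linarith) ht (by simp; positivity)
  have h7 := S.Yup3 hP1 h2 h3 hQ h4 hin h6 (ε * E / 10) (by linarith) (by norm_num at heps; nlinarith)
  have h8 : Yf cd G.c (ε * E / 10) ≤ ε / 5 * U := by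
    have : Yf cd G.c (ε * E / 10) * E ≤ ε / 5 * U * E := by
      calc _ ≤ _ := h7
        _ = _ := by ring
    exact le_of_mul_le_mul_right this hE
  have hN : Nf cd G.c = G.N := by rw [S.Nab.2.2, S.GN]
  rw [hN] at h5
  have h9 : |Nf cd t - G.N| ≤ 12 / 5 * ε * U := by linarith
  have m2 := (abs_le.1 S.Gmu).2
  have hz' := S.hz'
  have h10 : (|G.mu| + 1) * U ≤ |zc z| + 2 * ε ^ 2 := by linarith
  have h11 : 0 ≤ |G.mu| + 1 := by positivity
  calc |Nf cd t - G.N| * (|G.mu| + 1) ≤ 12 / 5 * ε * U * (|G.mu| + 1) := mul_le_mul_of_nonneg_right h9 h11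
    _ = 12 / 5 * ε * ((|G.mu| + 1) * U) := by ring
    _ ≤ 12 / 5 * ε * (|zc z| + 2 * ε ^ 2) := mul_le_mul_of_nonneg_left h10 (by positivity)
    _ = 12 / 25 * (5 * ε * |zc z|) + 24 / 5 * (ε * ε ^ 2) := by ring
    _ ≤ 12 / 25 * 1 + 24 / 5 * (1 * (1 / 10 ^ 16)) := by
      have : ε * ε ^ 2 ≤ 1 * (1 / 10 ^ 16) := mul_le_mul (by norm_num at heps; linarith) he2 (sq_nonneg _) (by norm_num)
      linarith
    _ ≤ 9 / 10 := by norm_num

/-- product s * kk from below -/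
theorem skk (S : S8 cd e ε K E A U z G) (h4 : ST_Q4) (h2 : ST_P2)
    (h6 : ∀ t ∈ Icc G.a G.b, vf cd t ≤ (1 + ε ^ (19 / 10 : ℝ)) * vf cd G.c) :
    ε / 2 * U ≤ G.s * G.kk * |zc z| ∧ 5 / 2 * ε ^ 2 * U ≤ G.s * G.kk := by
  obtain ⟨k1, k2, k3, k4, k5⟩ := S.kks h4 h2
  have hh := S.height h4 h2 h6
  have e1 : G.s * G.kk = 2 * vf cd G.c := by rw [k3]; field_simp
  have a1 : ε / 2 * U ≤ G.s * G.kk * |zc z| := by rw [e1]; linarith
  refine ⟨a1, ?_⟩
  have hε := S.ep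
  have hz' := S.hz'
  have h7 : 0 < G.s * G.kk := mul_pos k2 k1
  have : 5 * ε * (ε / 2 * U) ≤ G.s * G.kk := by
    calc 5 * ε * (ε / 2 * U) ≤ 5 * ε * (G.s * G.kk * |zc z|) := mul_le_mul_of_nonneg_left a1 (by positivity)
      _ = (G.s * G.kk) * (5 * ε * |zc z|) := by ring
      _ ≤ (G.s * G.kk) * 1 := mul_le_mul_of_nonneg_left hz' h7.le
      _ = _ := by ring
  calc 5 / 2 * ε ^ 2 * U = 5 * ε * (ε / 2 * U) := by ring
    _ ≤ _ := this

/-- bound for kk -/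
theorem kkb (S : S8 cd e ε K E A U z G) (hP1 : ST_P1) (h2 : ST_P2) (h3 : ST_P3) (hQ : ST_Q2) (h4 : ST_Q4)
    (hin : ∀ t : ℝ, e.c < t → t ≤ e.c + 4 * E → 0 < Nf cd t ∧ Nf cd t < 1)
    (h6 : ∀ t ∈ Icc G.a G.b, vf cd t ≤ (1 + ε ^ (19 / 10 : ℝ)) * vf cd G.c)
    (K3 : ℝ) (hK3 : 1 ≤ K3) (hK3ε : K3 * ε ≤ 1 / 2)
    (hq : ∀ z ∈ Uo, ‖z - ((G.a + G.b) / 2 : ℝ)‖ ≤ (ε * E / 10) / 4 →
    |Real.log ‖(cd.f z - G.N) / qc G.a G.b z‖ - Real.log (KI cd G.a G.b ((G.a + G.b) / 2))| ≤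
      K3 * (ε * (1 + Real.log (1 + ‖z - ((G.a + G.b) / 2 : ℝ)‖ / z.im) + Real.log (1 + ‖z - ((G.a + G.b) / 2 : ℝ)‖ / (G.b - G.a)))
        + ‖z - ((G.a + G.b) / 2 : ℝ)‖ / (ε * E / 10))) :
    G.kk * E ≤ Real.exp (3 + 5 * K3) * U := by
  have hE := S.el.pE
  have hε := S.ep
  have hU := S.U0
  have heps := S.eps
  obtain ⟨k1, k2, k3, k4, k5⟩ := S.kks h4 h2
  obtain ⟨_, _, p3, _, p5, _⟩ := hP1 Hm Hp C cd
  obtain ⟨_, sk⟩ := S.skk h4 h2 h6
  have hεE : 0 < ε * E := mul_pos hε hE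
  set r := ε * E / 40 with hr
  have hr0 : 0 < r := by positivity
  set zz : ℂ := (G.c : ℂ) + (r : ℂ) * I with hzz
  have him : zz.im = r := by simp [hzz]
  have hcc : ((G.a + G.b) / 2 : ℝ) = G.c := rfl
  have hnorm : ‖zz - ((G.c : ℝ) : ℂ)‖ = r := by
    have : zz - ((G.c : ℝ) : ℂ) = (r : ℂ) * I := by rw [hzz]; ring
    rw [this, norm_mul, Complex.norm_I, mul_one, Complex.norm_real, Real.norm_of_nonneg hr0.le]
  have h7 := hq zz (by simp only [Uo, mem_ofPred_eq, him]; exact hr0) (by rw [hcc, hnorm, hr]; linarith)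
  rw [hcc, hnorm, him, div_self hr0.ne'] at h7
  have hrE : r / (ε * E / 10) = 1 / 4 := by rw [hr]; field_simp; norm_num
  rw [hrE] at h7
  have hY0 := (p3 G.c r r hr0 (le_refl _)).1
  have hY := S.Yup3 hP1 h2 h3 hQ h4 hin h6 r (le_refl _) (by rw [hr]; norm_num at heps; nlinarith)
  have hYi : (cd.f zz - G.N).im = Yf cd G.c r := by
    simp [hzz, Yf]
  have hN : Nf cd G.c = G.N := by rw [S.Nab.2.2, S.GN]
  have hYr : |(cd.f zz - G.N).re| ≤ Yf cd G.c r := by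
    have := p5 G.c r hr0
    rw [hN] at this
    simpa [hzz] using this
  have hn1 : ‖cd.f zz - G.N‖ ≤ 2 * Yf cd G.c r := by
    have := Complex.norm_le_abs_re_add_abs_im (cd.f zz - G.N)
    rw [hYi, abs_of_pos hY0] at this
    linarith
  have hn0 : 0 < ‖cd.f zz - G.N‖ := by
    have := Complex.abs_im_le_norm (cd.f zz - G.N)
    rw [hYi, abs_of_pos hY0] at this
    linarith
  have hqr : r ≤ ‖qc G.a G.b zz‖ := e8_qc G.a G.b G.c r hr0
  have hg1 : ‖(cd.f zz - G.N) / qc G.a G.b zz‖ ≤ 4 * (U / E) := by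
    rw [norm_div, div_le_iff₀ (lt_of_lt_of_le hr0 hqr)]
    have h8 : 2 * Yf cd G.c r ≤ 4 * (U / E) * r := by
      have : 4 * (U / E) * r = (4 * r * U) / E := by ring
      rw [this, le_div_iff₀ hE]; linarith
    calc _ ≤ _ := hn1
      _ ≤ 4 * (U / E) * r := h8
      _ ≤ _ := mul_le_mul_of_nonneg_left hqr (by positivity)
  have hg0 : 0 < ‖(cd.f zz - G.N) / qc G.a G.b zz‖ := by
    rw [norm_div]; exact div_pos hn0 (lt_of_lt_of_le hr0 hqr)
  have hlog1 := Real.log_le_log hg0 hg1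
  set κ := G.kk * E / U with hκ
  have hκ0 : 0 < κ := by positivity
  have hkk : KI cd G.a G.b G.c = G.kk := rfl
  rw [hkk] at h7
  have hUE : 0 < U / E := by positivity
  have hkκ : G.kk = κ * (U / E) := by rw [hκ]; field_simp
  have hlogk : Real.log G.kk = Real.log κ + Real.log (U / E) := by
    rw [hkκ, Real.log_mul hκ0.ne' hUE.ne']
  have hlog4 : Real.log (4 * (U / E)) = Real.log 4 + Real.log (U / E) := Real.log_mul (by norm_num) hUE.ne'
  have hl4 : Real.log 4 ≤ 14 / 10 := by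
    have : Real.log 4 = 2 * Real.log 2 := by
      rw [show (4:ℝ) = 2 ^ 2 by norm_num, Real.log_pow]; norm_num
    rw [this]
    have := Real.log_two_lt_d9
    linarith
  have hl2 : Real.log (1 + 1) ≤ 1 := by
    have := Real.log_two_lt_d9
    norm_num at this ⊢; linarith
  have hκb : Real.log κ ≤ 14 / 10 + K3 * (ε * (1 + Real.log (1 + 1) + Real.log (1 + r / (G.b - G.a))) + 1 / 4) := by
    have := (abs_le.1 h7).1
    rw [hlogk] at this
    rw [hlog4] at hlog1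
    linarith
  have hgoal : κ ≤ Real.exp (3 + 5 * K3) := by
    refine e8_kap κ ε K3 (Real.log (1 + 1)) (Real.log (1 + r / (G.b - G.a))) hε heps hκ0 hK3 hK3ε hl2 ?_ hκb
    intro hc
    have hrs : r / (G.b - G.a) ≤ κ / (100 * ε) := by
      have hs : G.b - G.a = G.s := rfl
      rw [hs, div_le_div_iff₀ k2 (by positivity)]
      have : κ * G.s * U = G.s * G.kk * E := by rw [hκ]; field_simp
      have h8 : r * (100 * ε) * U ≤ κ * G.s * U := by
        rw [this]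
        calc r * (100 * ε) * U = 5 / 2 * ε ^ 2 * U * E := by rw [hr]; ring
          _ ≤ G.s * G.kk * E := mul_le_mul_of_nonneg_right sk hE.le
      exact le_of_mul_le_mul_right h8 hU
    have h9 : 1 + r / (G.b - G.a) ≤ κ * (1 / ε) := by
      have h10 : 1 ≤ 99 / 100 * (κ * (1 / ε)) := by
        have h20 : 100000000 ≤ 1 / ε := by
          rw [le_div_iff₀ hε]; norm_num at heps; linarith
        have h21 : 1 * (1 / ε) ≤ κ * (1 / ε) := mul_le_mul_of_nonneg_right hc.le (by linarith)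
        linarith
      have h11 : κ / (100 * ε) = 1 / 100 * (κ * (1 / ε)) := by field_simp
      linarith
    have hpos : 0 < 1 + r / (G.b - G.a) := by
      have : 0 < G.b - G.a := by linarith [G.lt]
      positivity
    have h10 := Real.log_le_log hpos h9
    have h1ε : 0 < 1 / ε := by positivity
    rwa [Real.log_mul hκ0.ne' h1ε.ne'] at h10
  calc G.kk * E = κ * U := by rw [hκ]; field_simp
    _ ≤ _ := mul_le_mul_of_nonneg_right hgoal hU.le

end S8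

end

end Pool.Agent.Helper75.CV.E8
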