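import Pool.Agent.Helper75.CV.E8e

set_option autoImplicit false

namespace Pool.Agent.Helper75.CV.E8

open Complex Filter Topology MeasureTheory Set
open Pool.Agent.Helper36.CV

noncomputable section

variable {Hm Hp : ℝ} {C : Set ℝ} {cd : CD Hm Hp C} {e : Edge cd} {ε K E A U : ℝ} {z : ℤ × ℤ} {G : Gap cd}

/-- logarithmic factor -/
theorem e8_logb (C2 ε x : ℝ) (hC2 : 1 ≤ C2) (hε : 0 < ε) (hε1 : ε ≤ 1) (hx1 : 1 ≤ x) (hx : x ≤ C2 / ε) :
    ε ^ 2 * (Real.logb 2 x + 1) ≤ 30 * C2 * ε ^ (39 / 20 : ℝ) := by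
  have hx0 : 0 < x := by linarith
  have h1 : Real.log x ≤ x ^ (1 / 20 : ℝ) / (1 / 20) := Real.log_le_rpow_div hx0.le (by norm_num)
  have h2 : x ^ (1 / 20 : ℝ) ≤ (C2 / ε) ^ (1 / 20 : ℝ) := Real.rpow_le_rpow hx0.le hx (by norm_num)
  have h3 : (C2 / ε) ^ (1 / 20 : ℝ) = C2 ^ (1 / 20 : ℝ) / ε ^ (1 / 20 : ℝ) := Real.div_rpow (by linarith) hε.le _
  have h4 : C2 ^ (1 / 20 : ℝ) ≤ C2 := by
    calc C2 ^ (1 / 20 : ℝ) ≤ C2 ^ (1 : ℝ) := Real.rpow_le_rpow_of_exponent_le hC2 (by norm_num)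
      _ = C2 := Real.rpow_one _
  have hp : 0 < ε ^ (1 / 20 : ℝ) := Real.rpow_pos_of_pos hε _
  have hp1 : ε ^ (1 / 20 : ℝ) ≤ 1 := Real.rpow_le_one hε.le hε1 (by norm_num)
  have h5 : x ^ (1 / 20 : ℝ) ≤ C2 / ε ^ (1 / 20 : ℝ) := by
    refine h2.trans ?_
    rw [h3]; exact div_le_div_of_nonneg_right h4 hp.le
  have h6 : Real.log x ≤ 20 * (C2 / ε ^ (1 / 20 : ℝ)) := by
    have : x ^ (1 / 20 : ℝ) / (1 / 20) = 20 * x ^ (1 / 20 : ℝ) := by ring
    rw [this] at h1
    linarith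
  have h7 : 1 ≤ C2 / ε ^ (1 / 20 : ℝ) := by rw [le_div_iff₀ hp]; linarith
  have h8 : Real.logb 2 x ≤ 29 * (C2 / ε ^ (1 / 20 : ℝ)) := by
    unfold Real.logb
    have hl2 := Real.log_two_gt_d9
    rw [div_le_iff₀ (by linarith)]
    have h9 : 29 * (C2 / ε ^ (1 / 20 : ℝ)) * (69 / 100) ≤ 29 * (C2 / ε ^ (1 / 20 : ℝ)) * Real.log 2 :=
      mul_le_mul_of_nonneg_left (by linarith) (by positivity)
    linarith
  have h9 : ε ^ (39 / 20 : ℝ) * ε ^ (1 / 20 : ℝ) = ε ^ 2 := by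
    rw [← Real.rpow_add hε, ← Real.rpow_natCast]
    norm_num
  calc ε ^ 2 * (Real.logb 2 x + 1) ≤ ε ^ 2 * (30 * (C2 / ε ^ (1 / 20 : ℝ))) :=
        mul_le_mul_of_nonneg_left (by linarith) (sq_nonneg _)
    _ = 30 * C2 * ε ^ (39 / 20 : ℝ) := by rw [← h9]; field_simp

namespace S8

theorem nb (S : S8 cd e ε K E A U z G) (hP1 : ST_P1) (h2 : ST_P2) (h3 : ST_P3) (hQ : ST_Q2) (h4 : ST_Q4)
    (hin : ∀ t : ℝ, e.c < t → t ≤ e.c + 4 * E → 0 < Nf cd t ∧ Nf cd t < 1)
    (h6 : ∀ t ∈ Icc G.a G.b, vf cd t ≤ (1 + ε ^ (19 / 10 : ℝ)) * vf cd G.c)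
    (C2 : ℝ) (hC2 : 1 ≤ C2) (hkk : G.kk * E ≤ C2 * U) (hsm : 3520 * C2 * Real.sqrt ε ≤ 1)
    (K6 : ℝ) (hK6 : 0 ≤ K6)
    (h6a : ∫ t in Icc (G.c - G.s / (4 * ε)) (G.c + G.s / (4 * ε)), vf cd t / |G.q t| ≤ K6 * ε * G.s * G.kk)
    (h6b : n2 G (G.s / (4 * ε)) ≤ ε ^ (19 / 10 : ℝ) * G.kk) :
    n1 G (E / 10) ≤ (K6 + 10 ^ 7 * C2 ^ 2) * ε ^ (39 / 20 : ℝ) * U ∧ n2 G (E / 10) * E ≤ 10 ^ 6 * C2 ^ 2 * ε * U := by
  have hE := S.el.pE
  have hε := S.ep
  have hU := S.U0
  have heps := S.eps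
  obtain ⟨q1, _⟩ := h2 Hm Hp C cd S.hm
  obtain ⟨k1, k2, k3, k4, k5⟩ := S.kks h4 h2
  obtain ⟨c1, c2⟩ := S.conj
  have hsmall := S.small h4 h2 h3
  obtain ⟨sk1, sk2⟩ := S.skk h4 h2 h6
  have hz' := S.hz'
  have hεE : 0 < ε * E := mul_pos hε hE
  have hC20 : 0 < C2 := by linarith
  set rG := G.s / (4 * ε) with hrG
  have hrG0 : 0 < rG := by positivity
  have hrs : G.s = 4 * ε * rG := by rw [hrG]; field_simp
  have hs1 : G.s * 900 ≤ 6 * ε * E := (mul_le_mul_of_nonneg_left c2 k2.le).trans hsmall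
  have hrG1 : rG ≤ E / 600 := by
    rw [hrs] at hs1
    have : ε * (3600 * rG) ≤ ε * (6 * E) := by linarith
    have := le_of_mul_le_mul_left this hε
    linarith
  have hrG2 : 5 / 8 * ε * E ≤ C2 * rG := by
    have a1 : ε / 2 * U * E ≤ G.s * |zc z| * (C2 * U) := by
      calc ε / 2 * U * E ≤ G.s * G.kk * |zc z| * E := mul_le_mul_of_nonneg_right sk1 hE.le
        _ = G.s * |zc z| * (G.kk * E) := by ring
        _ ≤ _ := mul_le_mul_of_nonneg_left hkk (by positivity)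
    have a2 : ε / 2 * E ≤ G.s * |zc z| * C2 := by
      have : ε / 2 * E * U ≤ G.s * |zc z| * C2 * U := by linarith
      exact le_of_mul_le_mul_right this hU
    have a3 : 5 * ε * (ε / 2 * E) ≤ G.s * C2 := by
      calc 5 * ε * (ε / 2 * E) ≤ 5 * ε * (G.s * |zc z| * C2) := mul_le_mul_of_nonneg_left a2 (by positivity)
        _ = G.s * C2 * (5 * ε * |zc z|) := by ring
        _ ≤ G.s * C2 * 1 := mul_le_mul_of_nonneg_left hz' (by positivity)
        _ = _ := by ring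
    rw [hrs] at a3
    have a4 : 4 * ε * (5 / 8 * ε * E) ≤ 4 * ε * (C2 * rG) := by linarith
    exact le_of_mul_le_mul_left a4 (by positivity)
  have hlow : 2200 * (ε * Real.sqrt ε) * E ≤ rG := by
    have a1 : C2 * (2200 * (ε * Real.sqrt ε) * E) ≤ C2 * rG := by
      calc C2 * (2200 * (ε * Real.sqrt ε) * E) = 5 / 8 * (3520 * C2 * Real.sqrt ε) * (ε * E) := by ring
        _ ≤ 5 / 8 * 1 * (ε * E) := by
          apply mul_le_mul_of_nonneg_right _ hεE.le
          linarith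
        _ = 5 / 8 * ε * E := by ring
        _ ≤ _ := hrG2
    exact le_of_mul_le_mul_left a1 hC20
  have hm : ∀ d, rG ≤ d → d ≤ E / 10 → ∫ t in Icc (G.c - d) (G.c + d) \ Icc G.a G.b, vf cd t ≤ 95400 * C2 * ε ^ 2 * U * d := by
    intro d h1 h7
    have h5 := (S.mass2 hP1 h2 h3 hQ h4 hin h6 d (hlow.trans h1) (by linarith)).2
    have hd0 : 0 < d := by linarith
    have h8 : max d (32 * ε * E) ≤ 53 * C2 * d := by
      apply max_le
      · nlinarith
      · have : C2 * rG ≤ C2 * d := mul_le_mul_of_nonneg_left h1 hC20.le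
        nlinarith
    calc _ ≤ _ := h5
      _ ≤ 1800 * ε ^ 2 * U * (53 * C2 * d) := mul_le_mul_of_nonneg_left h8 (by positivity)
      _ = _ := by ring
  have hI := (S.mass2 hP1 h2 h3 hQ h4 hin h6 (E / 10) (hlow.trans (by linarith)) (by linarith)).1
  have hsub : Icc G.a G.b ⊆ Icc (G.c - rG) (G.c + rG) := by
    have h9 : G.s ≤ rG := by
      rw [hrs]; norm_num at heps
      have : 4 * ε * rG ≤ 1 * rG := mul_le_mul_of_nonneg_right (by linarith) hrG0.le
      linarith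
    intro t ht
    unfold Gap.s at h9
    unfold Gap.c
    constructor
    · linarith [ht.1, G.lt]
    · linarith [ht.2, G.lt]
  set m := 95400 * C2 * ε ^ 2 * U with hmdef
  have hm0 : 0 ≤ m := by positivity
  obtain ⟨i1, i2, i3, i4⟩ := e8_shell2 (vf cd) (fun t => (q1 t).1) G.c rG (E / 10) m (Icc G.a G.b)
    hrG0 (by linarith) hsub hI hm0 hm
  set R := e8R G.c rG (E / 10) with hR
  have hRm : MeasurableSet R := e8R_meas _ _ _
  -- integrability of the densities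
  obtain ⟨hp3, _, _⟩ := h3 Hm Hp C cd G.a G.b G.N G.lt (fun t ht => G.lab t ht)
  have hcG : G.c ∈ Ioo G.a G.b := by
    unfold Gap.c; constructor <;> linarith [G.lt]
  have hJ2 : Integrable (fun t => vf cd t / (|G.q t| * |t - G.c|)) := (hp3 G.c hcG).1
  have hJ1 : ∀ d : ℝ, IntegrableOn (fun t => vf cd t / |G.q t|) (Icc (G.c - d) (G.c + d)) := by
    intro d
    have h7 : IntegrableOn (fun t => vf cd t / (|G.q t| * |t - G.c|) * |t - G.c|) (Icc (G.c - d) (G.c + d)) :=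
      hJ2.integrableOn.mul_continuousOn (by fun_prop) isCompact_Icc
    refine h7.congr_fun ?_ measurableSet_Icc
    intro t _
    show vf cd t / (|G.q t| * |t - G.c|) * |t - G.c| = vf cd t / |G.q t|
    by_cases ht : t = G.c
    · have hq0 : |G.q t| = 0 := by
        rw [e8_qabs, ht, Real.sqrt_eq_zero']
        have a1 := hcG.1
        have a2 := hcG.2
        nlinarith
      rw [hq0]; simp
    · have : |t - G.c| ≠ 0 := abs_ne_zero.2 (sub_ne_zero.2 ht)
      field_simp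
  have hsplit : Icc (G.c - E / 10) (G.c + E / 10) = Icc (G.c - rG) (G.c + rG) ∪ R := by
    ext t
    simp only [hR, e8R, mem_Icc, mem_union, mem_ofPred_eq]
    constructor
    · rintro ⟨h1, h7⟩
      by_cases h8 : |t - G.c| ≤ rG
      · left
        have := abs_le.1 h8
        constructor <;> linarith
      · right
        exact ⟨not_le.1 h8, abs_le.2 ⟨by linarith, by linarith⟩⟩
    · rintro (⟨h1, h7⟩ | ⟨h1, h7⟩)
      · constructor <;> linarith
      · have := abs_le.1 h7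
        constructor <;> linarith
  have hdisj : Disjoint (Icc (G.c - rG) (G.c + rG)) R := by
    rw [Set.disjoint_left]
    intro t h1 h7
    have h8 : |t - G.c| ≤ rG := abs_le.2 ⟨by linarith [h1.1], by linarith [h1.2]⟩
    have h9 : rG < |t - G.c| := h7.1
    linarith
  have hRsub : R ⊆ Icc (G.c - E / 10) (G.c + E / 10) := by rw [hsplit]; exact subset_union_right
  have hqlow : ∀ t ∈ R, 9 / 10 * |t - G.c| ≤ |G.q t| := by
    intro t ht
    have h1 : rG < |t - G.c| := ht.1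
    rw [e8_qabs]
    apply Real.le_sqrt_of_sq_le
    have h7 : (t - G.a) * (t - G.b) = (t - G.c) ^ 2 - G.s ^ 2 / 4 := by
      unfold Gap.c Gap.s; ring
    rw [h7, mul_pow, sq_abs]
    have h8 : G.s ≤ 1 / 10 * |t - G.c| := by
      rw [hrs]; norm_num at heps
      have : 4 * ε * rG ≤ 1 / 10 * rG := mul_le_mul_of_nonneg_right (by linarith) hrG0.le
      linarith
    have h9 : G.s ^ 2 ≤ (1 / 10 * |t - G.c|) ^ 2 := pow_le_pow_left₀ k2.le h8 2
    rw [mul_pow, sq_abs] at h9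
    nlinarith [sq_nonneg (t - G.c)]
  have hb1 : ∫ t in R, vf cd t / |G.q t| ≤ 10 / 9 * (2 * m * (Real.logb 2 (E / 10 / rG) + 1)) := by
    calc ∫ t in R, vf cd t / |G.q t| ≤ ∫ t in R, 10 / 9 * (vf cd t / |t - G.c|) := by
          refine setIntegral_mono_on ((hJ1 (E / 10)).mono_set hRsub) (i1.const_mul _) hRm ?_
          intro t ht
          have h1 : 0 < |t - G.c| := lt_trans hrG0 ht.1
          have h7 := hqlow t ht
          calc vf cd t / |G.q t| ≤ vf cd t / (9 / 10 * |t - G.c|) :=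
                div_le_div_of_nonneg_left (q1 t).1 (by positivity) h7
            _ = _ := by field_simp
      _ = 10 / 9 * ∫ t in R, vf cd t / |t - G.c| := integral_const_mul _ _
      _ ≤ _ := mul_le_mul_of_nonneg_left i3 (by norm_num)
  have hb2 : ∫ t in R, vf cd t / (|G.q t| * |t - G.c|) ≤ 10 / 9 * (4 * m / rG) := by
    calc ∫ t in R, vf cd t / (|G.q t| * |t - G.c|) ≤ ∫ t in R, 10 / 9 * (vf cd t / |t - G.c| ^ 2) := by
          refine setIntegral_mono_on hJ2.integrableOn (i2.const_mul _) hRm ?_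
          intro t ht
          have h1 : 0 < |t - G.c| := lt_trans hrG0 ht.1
          have h7 := hqlow t ht
          calc vf cd t / (|G.q t| * |t - G.c|) ≤ vf cd t / (9 / 10 * |t - G.c| * |t - G.c|) :=
                div_le_div_of_nonneg_left (q1 t).1 (by positivity) (mul_le_mul_of_nonneg_right h7 h1.le)
            _ = _ := by field_simp
      _ = 10 / 9 * ∫ t in R, vf cd t / |t - G.c| ^ 2 := integral_const_mul _ _
      _ ≤ _ := mul_le_mul_of_nonneg_left i4 (by norm_num)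
  have hε1 : ε ≤ 1 := by norm_num at heps; linarith
  constructor
  · have hn : n1 G (E / 10) = (∫ t in Icc (G.c - rG) (G.c + rG), vf cd t / |G.q t|) + ∫ t in R, vf cd t / |G.q t| := by
      unfold n1
      rw [hsplit, setIntegral_union hdisj hRm (hJ1 rG) ((hJ1 (E / 10)).mono_set hRsub)]
    have hx1 : 1 ≤ E / 10 / rG := by rw [le_div_iff₀ hrG0]; linarith
    have hx2 : E / 10 / rG ≤ C2 / ε := by
      rw [div_le_div_iff₀ hrG0 hε]; nlinarith
    have hl := e8_logb C2 ε (E / 10 / rG) hC2 hε hε1 hx1 hx2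
    have a1 : 10 / 9 * (2 * m * (Real.logb 2 (E / 10 / rG) + 1)) ≤ 10 ^ 7 * C2 ^ 2 * ε ^ (39 / 20 : ℝ) * U := by
      have : 10 / 9 * (2 * m * (Real.logb 2 (E / 10 / rG) + 1)) = 212000 * C2 * U * (ε ^ 2 * (Real.logb 2 (E / 10 / rG) + 1)) := by
        rw [hmdef]; ring
      rw [this]
      have hpp : 0 < ε ^ (39 / 20 : ℝ) := Real.rpow_pos_of_pos hε _
      calc _ ≤ 212000 * C2 * U * (30 * C2 * ε ^ (39 / 20 : ℝ)) := mul_le_mul_of_nonneg_left hl (by positivity)
        _ = 6360000 * (C2 ^ 2 * ε ^ (39 / 20 : ℝ) * U) := by ring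
        _ ≤ 10 ^ 7 * (C2 ^ 2 * ε ^ (39 / 20 : ℝ) * U) := mul_le_mul_of_nonneg_right (by norm_num) (by positivity)
        _ = _ := by ring
    have a2 : K6 * ε * G.s * G.kk ≤ K6 * ε ^ (39 / 20 : ℝ) * U := by
      have b1 : G.kk * G.s ≤ ε * U := by
        have : G.kk * G.s * 900 ≤ 51 / 100 * ε * U :=
          (mul_le_mul_of_nonneg_left c2 (by positivity)).trans k5
        have h9 : 0 < ε * U := by positivity
        have h10 : 0 < G.kk * G.s := by positivity
        nlinarith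
      have b2 : ε ^ 2 ≤ ε ^ (39 / 20 : ℝ) := by
        rw [← Real.rpow_natCast]
        exact Real.rpow_le_rpow_of_exponent_ge hε hε1 (by norm_num)
      calc K6 * ε * G.s * G.kk = K6 * ε * (G.kk * G.s) := by ring
        _ ≤ K6 * ε * (ε * U) := mul_le_mul_of_nonneg_left b1 (by positivity)
        _ = K6 * ε ^ 2 * U := by ring
        _ ≤ _ := mul_le_mul_of_nonneg_right (mul_le_mul_of_nonneg_left b2 hK6) hU.le
    rw [hn]
    calc _ ≤ K6 * ε ^ (39 / 20 : ℝ) * U + 10 ^ 7 * C2 ^ 2 * ε ^ (39 / 20 : ℝ) * U :=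
          add_le_add (h6a.trans a2) (hb1.trans a1)
      _ = _ := by ring
  · have hn : n2 G (E / 10) = n2 G rG + ∫ t in R, vf cd t / (|G.q t| * |t - G.c|) := by
      unfold n2
      rw [hsplit, setIntegral_union hdisj hRm hJ2.integrableOn hJ2.integrableOn]
    have a1 : 10 / 9 * (4 * m / rG) * E ≤ 700000 * C2 ^ 2 * ε * U := by
      have : 10 / 9 * (4 * m / rG) * E = 424000 * C2 * ε ^ 2 * U * E / rG := by
        rw [hmdef]; ring
      rw [this, div_le_iff₀ hrG0]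
      calc 424000 * C2 * ε ^ 2 * U * E = (678400 * C2 * ε * U) * (5 / 8 * ε * E) := by ring
        _ ≤ (678400 * C2 * ε * U) * (C2 * rG) := mul_le_mul_of_nonneg_left hrG2 (by positivity)
        _ = 678400 * (C2 ^ 2 * ε * U * rG) := by ring
        _ ≤ 700000 * (C2 ^ 2 * ε * U * rG) := mul_le_mul_of_nonneg_right (by norm_num) (by positivity)
        _ = _ := by ring
    have a2 : n2 G rG * E ≤ C2 ^ 2 * ε * U := by
      have h19 := S.e19
      calc n2 G rG * E ≤ ε ^ (19 / 10 : ℝ) * G.kk * E := mul_le_mul_of_nonneg_right h6b hE.le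
        _ ≤ ε * G.kk * E := by
          apply mul_le_mul_of_nonneg_right _ hE.le
          exact mul_le_mul_of_nonneg_right h19 k1.le
        _ = ε * (G.kk * E) := by ring
        _ ≤ ε * (C2 * U) := mul_le_mul_of_nonneg_left hkk hε.le
        _ = 1 * (C2 * (ε * U)) := by ring
        _ ≤ C2 * (C2 * (ε * U)) := mul_le_mul_of_nonneg_right hC2 (by positivity)
        _ = _ := by ring
    rw [hn, add_mul]
    have a3 : (∫ t in R, vf cd t / (|G.q t| * |t - G.c|)) * E ≤ 700000 * C2 ^ 2 * ε * U :=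
      (mul_le_mul_of_nonneg_right hb2 hE.le).trans a1
    have a4 : 0 < C2 ^ 2 * ε * U := by positivity
    linarith

/-- final computation -/
theorem fin (S : S8 cd e ε K E A U z G) (h2 : ST_P2) (h3 : ST_P3) (h4 : ST_Q4)
    (h6 : ∀ t ∈ Icc G.a G.b, vf cd t ≤ (1 + ε ^ (19 / 10 : ℝ)) * vf cd G.c)
    (hUσ : |U - A * Real.sqrt E| ≤ ε ^ (37 / 20 : ℝ) * A * Real.sqrt E)
    (hK : 0 ≤ K) (B2 : ℝ) (hB2 : 0 ≤ B2) (he20 : ε ^ (1 / 20 : ℝ) ≤ 1 / 1000)
    (hn1 : K * n1 G (E / 10) ≤ ε ^ (19 / 10 : ℝ) * U) (hn2 : n2 G (E / 10) * E ≤ B2 * ε * U) :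
    |G.c - e.c - zv z ^ 2 * E| ≤ ε ^ (9 / 5 : ℝ) * E ∧
    ε * zv z * (1 - (6 + 2 * K * B2) * ε) * E ≤ |zc z| * G.s := by
  have hE := S.el.pE
  have hA := S.el.pA
  have hε := S.ep
  have hU := S.U0
  have heps := S.eps
  have hs1 := S.s1
  have hs2 := S.s2
  obtain ⟨al1, al2⟩ := S.al
  obtain ⟨cc1, cc2⟩ := S.cc
  obtain ⟨po1, po2⟩ := S.pos
  obtain ⟨k1, k2, k3, k4, k5⟩ := S.kks h4 h2
  obtain ⟨_, sE1, sE2⟩ := S.sE h4 h2 h3
  obtain ⟨sk1, sk2⟩ := S.skk h4 h2 h6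
  have hε1 : ε ≤ 1 := by norm_num at heps; linarith
  have hεE : 0 < ε * E := mul_pos hε hE
  obtain ⟨l1, l2⟩ := S.el.law G (by linarith) (by linarith) (by linarith)
  set σ := A * Real.sqrt E with hσ
  have hσ0 : 0 < σ := S.sA
  set X := G.c - e.c with hX
  have hX0 : 0 < X := by linarith
  set ρ := Real.sqrt (X / E) with hρ
  have hρ0 : 0 ≤ ρ := Real.sqrt_nonneg _
  have hρ2 : ρ ^ 2 * E = X := by
    rw [hρ, Real.sq_sqrt (by positivity)]; field_simp
  have hρle : ρ ≤ 7142 / 10000 := by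
    rw [hρ, Real.sqrt_le_left (by norm_num), div_le_iff₀ hE]
    linarith
  have hsX : A * Real.sqrt X = ρ * σ := by
    have : X = E * (X / E) := by field_simp
    rw [this, Real.sqrt_mul hE.le, ← hρ, hσ]; ring
  set y5 := ε ^ (9 / 5 : ℝ) with hy5
  set x := ε ^ (1 / 20 : ℝ) with hx
  have hy50 : 0 < y5 := Real.rpow_pos_of_pos hε _
  have hx0 : 0 < x := Real.rpow_pos_of_pos hε _
  have e37 : ε ^ (37 / 20 : ℝ) = y5 * x := by
    rw [hy5, hx, ← Real.rpow_add hε]; norm_num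
  have e19 : ε ^ (19 / 10 : ℝ) = y5 * x * x := by
    rw [hy5, hx, ← Real.rpow_add hε, ← Real.rpow_add hε]; norm_num
  have hGN : G.N - e.N = zv z * U := by rw [S.GN]; ring
  have g1 : ε ^ (19 / 10 : ℝ) * A * Real.sqrt E = ε ^ (19 / 10 : ℝ) * σ := by rw [hσ]; ring
  rw [hGN, hsX, g1] at l1
  have g2 : ε ^ (37 / 20 : ℝ) * A * Real.sqrt E = ε ^ (37 / 20 : ℝ) * σ := by rw [hσ]; ring
  rw [g2, e37] at hUσ
  rw [e19] at l1 hn1
  have hyx : 0 < y5 * x := mul_pos hy50 hx0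
  have hd1 : |zv z - ρ| ≤ 71 / 100 * (y5 * x) := by
    have a1 : |zv z - ρ| * σ ≤ 71 / 100 * (y5 * x) * σ := by
      have a2 : (zv z - ρ) * σ = (zv z * U - ρ * σ) - zv z * (U - σ) := by ring
      have a3 : |zv z - ρ| * σ = |(zv z * U - ρ * σ) - zv z * (U - σ)| := by
        rw [← a2, abs_mul, abs_of_pos hσ0]
      rw [a3]
      have a4 : |(zv z * U - ρ * σ) - zv z * (U - σ)| ≤ |zv z * U - ρ * σ| + |zv z * (U - σ)| := abs_sub _ _
      have a5 : |zv z * (U - σ)| ≤ 7072 / 10000 * (y5 * x * σ) := by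
        rw [abs_mul, abs_of_pos (by linarith : 0 < zv z)]
        exact mul_le_mul al2 hUσ (abs_nonneg _) (by norm_num)
      have a6 : |zv z * U - ρ * σ| ≤ y5 * x * x * U + y5 * x * x * σ := l1.trans (add_le_add hn1 (le_refl _))
      have a7 : y5 * x * x * U ≤ y5 * x * (1 / 1000) * (10001 / 10000 * σ) :=
        mul_le_mul (mul_le_mul_of_nonneg_left he20 hyx.le) hs2 hU.le (by positivity)
      have a8 : y5 * x * x * σ ≤ y5 * x * (1 / 1000) * σ :=
        mul_le_mul_of_nonneg_right (mul_le_mul_of_nonneg_left he20 hyx.le) hσ0.le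
      have a9 : 0 < y5 * x * σ := mul_pos hyx hσ0
      linarith
    exact le_of_mul_le_mul_right a1 hσ0
  have hpos : |X - zv z ^ 2 * E| ≤ y5 * E := by
    have a1 : X - zv z ^ 2 * E = -((zv z - ρ) * (zv z + ρ)) * E := by rw [← hρ2]; ring
    rw [a1, abs_mul, abs_neg, abs_mul, abs_of_pos hE, abs_of_nonneg (by linarith : 0 ≤ zv z + ρ)]
    apply mul_le_mul_of_nonneg_right _ hE.le
    calc |zv z - ρ| * (zv z + ρ) ≤ 71 / 100 * (y5 * x) * (14214 / 10000) :=
          mul_le_mul hd1 (by linarith) (by linarith) (by positivity)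
      _ = (71 / 100 * (14214 / 10000)) * x * y5 := by ring
      _ ≤ 1 * y5 := by
        apply mul_le_mul_of_nonneg_right _ hy50.le
        norm_num; linarith
      _ = y5 := one_mul _
  refine ⟨hpos, ?_⟩
  -- second part
  have hy5ε : y5 ≤ ε := by
    calc y5 ≤ ε ^ (1 : ℝ) := Real.rpow_le_rpow_of_exponent_ge hε hε1 (by norm_num)
      _ = ε := Real.rpow_one _
  have hα2 : 4998 / 10000 ≤ zv z ^ 2 := by nlinarith
  have hXl : zv z ^ 2 * E * (1 - 3 * ε) ≤ X := by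
    have a1 := (abs_le.1 hpos).1
    have a2 : y5 * E ≤ ε * E := mul_le_mul_of_nonneg_right hy5ε hE.le
    have a3 : 4998 / 10000 * (ε * E) ≤ zv z ^ 2 * (ε * E) := mul_le_mul_of_nonneg_right hα2 hεE.le
    nlinarith
  have hα0 : 0 < zv z := by linarith
  -- bound for kk * (2 α E)
  have hkE : G.kk * (2 * zv z * E) ≤ U * (1 + (6 + 2 * K * B2) * ε) := by
    have b1 : (G.N - e.N) / (2 * (G.c - e.c)) * (2 * zv z * E) ≤ U * (1 + 4 * ε) := by
      rw [hGN, ← hX]
      have c1 : zv z * U / (2 * X) * (2 * zv z * E) = U * (zv z ^ 2 * E) / X := by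
        field_simp
      rw [c1, div_le_iff₀ hX0, mul_assoc]
      apply mul_le_mul_of_nonneg_left _ hU.le
      have c2 : 0 < zv z ^ 2 * E := by positivity
      calc zv z ^ 2 * E = zv z ^ 2 * E * 1 := by ring
        _ ≤ zv z ^ 2 * E * ((1 + 4 * ε) * (1 - 3 * ε)) := by
          apply mul_le_mul_of_nonneg_left _ c2.le
          norm_num at heps
          nlinarith
        _ = (1 + 4 * ε) * (zv z ^ 2 * E * (1 - 3 * ε)) := by ring
        _ ≤ _ := mul_le_mul_of_nonneg_left hXl (by positivity)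
    have b2 : K * n2 G (E / 10) * (2 * zv z * E) ≤ 2 * K * B2 * ε * U := by
      calc K * n2 G (E / 10) * (2 * zv z * E) = 2 * zv z * K * (n2 G (E / 10) * E) := by ring
        _ ≤ 2 * zv z * K * (B2 * ε * U) := mul_le_mul_of_nonneg_left hn2 (by positivity)
        _ = zv z * (2 * K * B2 * ε * U) := by ring
        _ ≤ 1 * (2 * K * B2 * ε * U) := mul_le_mul_of_nonneg_right (by linarith) (by positivity)
        _ = _ := one_mul _
    have b3 : ε ^ (19 / 10 : ℝ) * A / Real.sqrt E * (2 * zv z * E) ≤ 2 * ε * U := by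
      have hsE : Real.sqrt E * Real.sqrt E = E := Real.mul_self_sqrt hE.le
      have hsE0 : 0 < Real.sqrt E := Real.sqrt_pos.2 hE
      have c1 : ε ^ (19 / 10 : ℝ) * A / Real.sqrt E * (2 * zv z * E) = ε ^ (19 / 10 : ℝ) * (2 * zv z * σ) := by
        rw [hσ]
        calc ε ^ (19 / 10 : ℝ) * A / Real.sqrt E * (2 * zv z * E)
            = ε ^ (19 / 10 : ℝ) * A / Real.sqrt E * (2 * zv z * (Real.sqrt E * Real.sqrt E)) := by rw [hsE]
          _ = _ := by field_simp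
      rw [c1]
      have h19 := S.e19
      have c2 : 2 * zv z * σ ≤ 2 * U := by nlinarith
      calc _ ≤ ε * (2 * U) := mul_le_mul h19 c2 (by positivity) hε.le
        _ = _ := by ring
    calc G.kk * (2 * zv z * E) ≤ ((G.N - e.N) / (2 * (G.c - e.c)) + K * n2 G (E / 10) + ε ^ (19 / 10 : ℝ) * A / Real.sqrt E) * (2 * zv z * E) :=
          mul_le_mul_of_nonneg_right l2 (by positivity)
      _ = (G.N - e.N) / (2 * (G.c - e.c)) * (2 * zv z * E) + K * n2 G (E / 10) * (2 * zv z * E)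
          + ε ^ (19 / 10 : ℝ) * A / Real.sqrt E * (2 * zv z * E) := by ring
      _ ≤ U * (1 + 4 * ε) + 2 * K * B2 * ε * U + 2 * ε * U := add_le_add (add_le_add b1 b2) b3
      _ = _ := by ring
  set K' := 6 + 2 * K * B2 with hK'
  rcases le_or_gt (1 - K' * ε) 0 with hc | hc
  · have a1 : ε * zv z * (1 - K' * ε) * E ≤ 0 := by
      have : 0 < ε * zv z * E := by positivity
      nlinarith
    exact a1.trans (by positivity)
  · have a1 : G.kk * (ε * zv z * (1 - K' * ε) * E) ≤ G.kk * (|zc z| * G.s) := by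
      have b1 : G.kk * (2 * zv z * E) * (1 - K' * ε) ≤ U * (1 + K' * ε) * (1 - K' * ε) := mul_le_mul_of_nonneg_right hkE hc.le
      have b2 : U * (1 + K' * ε) * (1 - K' * ε) ≤ U := by
        have : U * (1 + K' * ε) * (1 - K' * ε) = U - U * (K' * ε) ^ 2 := by ring
        rw [this]
        have : 0 ≤ U * (K' * ε) ^ 2 := by positivity
        linarith
      calc G.kk * (ε * zv z * (1 - K' * ε) * E) = ε / 2 * (G.kk * (2 * zv z * E) * (1 - K' * ε)) := by ring
        _ ≤ ε / 2 * U := mul_le_mul_of_nonneg_left (b1.trans b2) (by positivity)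
        _ ≤ G.s * G.kk * |zc z| := sk1
        _ = _ := by ring
    exact le_of_mul_le_mul_left a1 k1

end S8

end

end Pool.Agent.Helper75.CV.E8
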